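import Pool.Agent.Helper211.SimpDom

set_option autoImplicit false

namespace Pool.Agent.Helper211.AffAlg

open scoped Pointwise

/-! ### Increasing affine maps of the line -/

/-- The map `t ↦ l * t + b` with `0 < l`. -/
@[ext] structure Aff where
  l : ℝ
  hl : 0 < l
  b : ℝ

namespace Aff

/-- The action on the line. -/
def act (g : Aff) (t : ℝ) : ℝ := g.l * t + g.b

noncomputable instance : Mul Aff := ⟨fun g h => ⟨g.l * h.l, mul_pos g.hl h.hl, g.l * h.b + g.b⟩⟩
noncomputable instance : One Aff := ⟨⟨1, one_pos, 0⟩⟩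
noncomputable instance : Inv Aff := ⟨fun g => ⟨g.l⁻¹, inv_pos.2 g.hl, - g.l⁻¹ * g.b⟩⟩

theorem mul_l (g h : Aff) : (g * h).l = g.l * h.l := rfl
theorem mul_b (g h : Aff) : (g * h).b = g.l * h.b + g.b := rfl
theorem one_l : (1 : Aff).l = 1 := rfl
theorem one_b : (1 : Aff).b = 0 := rfl
theorem inv_l (g : Aff) : (g⁻¹).l = g.l⁻¹ := rfl
theorem inv_b (g : Aff) : (g⁻¹).b = - g.l⁻¹ * g.b := rfl

noncomputable instance : Group Aff :=
  Group.ofLeftAxioms
    (by
      intro p q r
      ext
      · simp only [mul_l, mul_assoc]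
      · simp only [mul_l, mul_b]; ring)
    (by
      intro p
      ext
      · simp only [mul_l, one_l, one_mul]
      · simp only [mul_b, one_b, one_l, one_mul, add_zero])
    (by
      intro p
      have := p.hl.ne'
      ext
      · simp only [mul_l, one_l, inv_l]
        exact inv_mul_cancel₀ this
      · simp only [mul_b, one_b, inv_b, inv_l]
        ring)

theorem act_mul (g h : Aff) (t : ℝ) : act (g * h) t = act g (act h t) := by
  simp only [act, mul_l, mul_b]; ring

theorem act_one (t : ℝ) : act 1 t = t := by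
  simp only [act, one_l, one_b]; ring

theorem act_lt (g : Aff) {s t : ℝ} (h : s < t) : act g s < act g t := by
  have := mul_lt_mul_of_pos_left h g.hl
  simp only [act]
  linarith

theorem act_le (g : Aff) {s t : ℝ} (h : s ≤ t) : act g s ≤ act g t := by
  have := mul_le_mul_of_nonneg_left h g.hl.le
  simp only [act]
  linarith

theorem act_inv_act (g : Aff) (t : ℝ) : act g (act g⁻¹ t) = t := by
  rw [← act_mul, mul_inv_cancel, act_one]

end Aff

open Aff

/-- The group algebra. -/
abbrev A : Type := MonoidAlgebra ℚ Aff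

theorem supp_nonempty {T : A} (h : T ≠ 0) : T.coeff.support.Nonempty := by
  rw [Finsupp.support_nonempty_iff]
  intro h'
  exact h (MonoidAlgebra.coeff_eq_zero.1 h')

open Classical in
/-- The minimum of the values at `t` of the affine maps in the support. -/
noncomputable def mn (T : A) (t : ℝ) : ℝ :=
  if h : T.coeff.support.Nonempty then T.coeff.support.inf' h (fun g => act g t) else 0

theorem mn_le (T : A) (t : ℝ) (g : Aff) (hg : g ∈ T.coeff.support) : mn T t ≤ act g t := by
  unfold mn
  rw [dif_pos ⟨g, hg⟩]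
  exact Finset.inf'_le (fun g => act g t) hg

theorem exists_mn {T : A} (h : T ≠ 0) (t : ℝ) : ∃ g ∈ T.coeff.support, act g t = mn T t := by
  unfold mn
  rw [dif_pos (supp_nonempty h)]
  obtain ⟨g, hg, h1⟩ := Finset.exists_mem_eq_inf' (supp_nonempty h) (fun g => act g t)
  exact ⟨g, hg, h1.symm⟩

theorem mn_eq {T : A} (t x : ℝ) (g : Aff) (hg : g ∈ T.coeff.support) (hx : act g t = x)
    (hmin : ∀ h ∈ T.coeff.support, x ≤ act h t) : mn T t = x := by
  apply le_antisymm
  · rw [← hx]; exact mn_le T t g hg
  · have h0 : T ≠ 0 := by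
      rintro rfl
      simp at hg
    obtain ⟨h, hh, h1⟩ := exists_mn h0 t
    rw [← h1]
    exact hmin h hh

theorem mn_strictMono {T : A} (h : T ≠ 0) : StrictMono (mn T) := by
  intro s t hst
  obtain ⟨g, hg, h1⟩ := exists_mn h t
  rw [← h1]
  exact lt_of_le_of_lt (mn_le T s g hg) (act_lt g hst)

theorem mn_surj {T : A} (h : T ≠ 0) : Function.Surjective (mn T) := by
  intro y
  obtain ⟨g, hg, h1⟩ := Finset.exists_mem_eq_sup' (supp_nonempty h) (fun g => act g⁻¹ y)
  refine ⟨T.coeff.support.sup' (supp_nonempty h) (fun g => act g⁻¹ y), ?_⟩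
  apply mn_eq _ _ g hg
  · rw [h1, act_inv_act]
  · intro k hk
    have h2 : act k⁻¹ y ≤ T.coeff.support.sup' (supp_nonempty h) (fun g => act g⁻¹ y) :=
      Finset.le_sup' (fun g => act g⁻¹ y) hk
    have h3 := act_le k h2
    rw [act_inv_act] at h3
    exact h3

/-- `mn T` as an order automorphism. -/
noncomputable def iso (T : A) (h : T ≠ 0) : ℝ ≃o ℝ :=
  StrictMono.orderIsoOfSurjective (mn T) (mn_strictMono h) (mn_surj h)

theorem iso_apply (T : A) (h : T ≠ 0) (t : ℝ) : iso T h t = mn T t := rfl

theorem key (T T' : A) (h : T ≠ 0) (h' : T' ≠ 0) (t : ℝ) :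
    T * T' ≠ 0 ∧ mn (T * T') t = mn T (mn T' t) := by
  classical
  -- minimal element of the second factor
  obtain ⟨k0, hk0, hk1⟩ := Finset.exists_min_image T'.coeff.support
    (fun g => toLex (act g t, g.l)) (supp_nonempty h')
  set x := act k0 t with hx
  obtain ⟨g0, hg0, hg1⟩ := Finset.exists_min_image T.coeff.support
    (fun g => toLex (act g x, g.l)) (supp_nonempty h)
  have hk2 : ∀ k ∈ T'.coeff.support, x ≤ act k t ∧ (act k t = x → k0.l ≤ k.l) := by
    intro k hk
    have := hk1 k hk
    rw [Prod.Lex.le_iff] at this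
    simp only [ofLex_toLex] at this
    rcases this with h1 | ⟨h1, h2⟩
    · exact ⟨h1.le, fun h3 => absurd (h3 ▸ h1) (lt_irrefl _)⟩
    · exact ⟨h1.le, fun _ => h2⟩
  have hg2 : ∀ g ∈ T.coeff.support, act g0 x ≤ act g x ∧ (act g x = act g0 x → g0.l ≤ g.l) := by
    intro g hg
    have := hg1 g hg
    rw [Prod.Lex.le_iff] at this
    simp only [ofLex_toLex] at this
    rcases this with h1 | ⟨h1, h2⟩
    · exact ⟨h1.le, fun h3 => absurd (h3 ▸ h1) (lt_irrefl _)⟩
    · exact ⟨h1.le, fun _ => h2⟩
  have hmnT' : mn T' t = x := mn_eq t x k0 hk0 rfl (fun k hk => (hk2 k hk).1)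
  have hmnT : mn T x = act g0 x := mn_eq x _ g0 hg0 rfl (fun g hg => (hg2 g hg).1)
  have huniq : UniqueMul T.coeff.support T'.coeff.support g0 k0 := by
    intro g k hg hk hgk
    have e1 : act g (act k t) = act g0 x := by
      rw [← act_mul, hgk, act_mul]
    have hk3 := hk2 k hk
    have hg3 := hg2 g hg
    have e2 : act k t = x := by
      by_contra hne
      have hlt : x < act k t := lt_of_le_of_ne hk3.1 (Ne.symm hne)
      have := act_lt g hlt
      linarith [hg3.1]
    have e3 : act g x = act g0 x := by rw [← e1, e2]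
    have e4 : g.l * k.l = g0.l * k0.l := congrArg Aff.l hgk
    have e5 := hk3.2 e2
    have e6 := hg3.2 e3
    have e7 : k.l = k0.l := by
      by_contra hne
      have hlt : k0.l < k.l := lt_of_le_of_ne e5 (Ne.symm hne)
      have h1 : g0.l * k0.l < g.l * k.l := by
        calc g0.l * k0.l < g0.l * k.l := mul_lt_mul_of_pos_left hlt g0.hl
          _ ≤ g.l * k.l := mul_le_mul_of_nonneg_right e6 k.hl.le
      linarith
    have e8 : g.l = g0.l := by
      rw [e7] at e4
      exact mul_right_cancel₀ k0.hl.ne' e4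
    constructor
    · ext
      · exact e8
      · simp only [act, e8] at e3
        linarith
    · ext
      · exact e7
      · have : k.l * t + k.b = k0.l * t + k0.b := e2
        rw [e7] at this
        linarith
  have hcoeff : (T * T').coeff (g0 * k0) ≠ 0 := by
    rw [MonoidAlgebra.coeff_mul_mul_of_uniqueMul huniq]
    exact mul_ne_zero (Finsupp.mem_support_iff.1 hg0) (Finsupp.mem_support_iff.1 hk0)
  constructor
  · intro h0
    rw [h0] at hcoeff
    exact hcoeff rfl
  · rw [hmnT', hmnT]
    apply mn_eq t _ (g0 * k0) (Finsupp.mem_support_iff.2 hcoeff)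
    · rw [act_mul]
    · intro m hm
      have hm' := MonoidAlgebra.support_coeff_mul_subset T T' hm
      obtain ⟨g, hg, k, hk, rfl⟩ := Finset.mem_mul.1 hm'
      rw [act_mul]
      exact (hg2 g hg).1.trans (act_le g (hk2 k hk).1)

instance : NoZeroDivisors A := by
  refine ⟨?_⟩
  intro a b hab
  by_contra hcon
  push Not at hcon
  exact (key a b hcon.1 hcon.2 0).1 hab

theorem mn_one (t : ℝ) : mn (1 : A) t = t := by
  apply mn_eq t t 1
  · rw [Finsupp.mem_support_iff, MonoidAlgebra.coeff_one_one]
    exact one_ne_zero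
  · exact act_one t
  · intro g hg
    have := MonoidAlgebra.support_coeff_one_subset (k := ℚ) (G := Aff) hg
    rw [Finset.mem_one] at this
    rw [this, act_one]

theorem mn_add (a b : A) (hab : a + b ≠ 0) (t : ℝ) : min (mn a t) (mn b t) ≤ mn (a + b) t := by
  obtain ⟨g, hg, h1⟩ := exists_mn hab t
  rw [← h1]
  rw [Finsupp.mem_support_iff, MonoidAlgebra.coeff_add, Finsupp.add_apply] at hg
  by_cases hga : a.coeff g = 0
  · have hgb : b.coeff g ≠ 0 := by
      intro h; rw [hga, h, add_zero] at hg; exact hg rfl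
    exact (min_le_right _ _).trans (mn_le b t g (Finsupp.mem_support_iff.2 hgb))
  · exact (min_le_left _ _).trans (mn_le a t g (Finsupp.mem_support_iff.2 hga))

theorem mn_single (g : Aff) (t : ℝ) : mn (MonoidAlgebra.single g 1 : A) t = act g t := by
  classical
  apply mn_eq t _ g _ rfl
  · intro h hh
    rw [Finsupp.mem_support_iff, MonoidAlgebra.coeff_single, Finsupp.single_apply] at hh
    by_cases he : g = h
    · rw [he]
    · rw [if_neg he] at hh
      exact absurd rfl hh
  · rw [Finsupp.mem_support_iff, MonoidAlgebra.coeff_single, Finsupp.single_apply, if_pos rfl]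
    exact one_ne_zero

end Pool.Agent.Helper211.AffAlg
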