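import Pool.Agent.Helper211.AffAlg

set_option autoImplicit false

namespace Pool.Agent.Helper211.AffAlg

open scoped Pointwise

open Classical in
/-- Powers of a finite set in a commutative monoid grow polynomially. -/
theorem card_pow_le {H : Type} [CommMonoid H] (E : Finset H) (n : ℕ) :
    (E ^ n).card ≤ (n + 1) ^ E.card := by
  have key : ∀ n : ℕ, ∀ x ∈ E ^ n, ∃ a : E → Fin (n + 1), x = ∏ e : E, (e : H) ^ (a e : ℕ) := by
    intro n
    induction n with
    | zero =>
      intro x hx
      rw [pow_zero, Finset.mem_one] at hx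
      exact ⟨fun _ => 0, by simp [hx]⟩
    | succ n ih =>
      intro x hx
      rw [pow_succ, Finset.mem_mul] at hx
      obtain ⟨y, hy, e0, he0, rfl⟩ := hx
      obtain ⟨a, rfl⟩ := ih y hy
      refine ⟨fun e => if e = ⟨e0, he0⟩ then (a e).succ else (a e).castSucc, ?_⟩
      have h1 : ∀ e : E, (e : H) ^ (((if e = ⟨e0, he0⟩ then (a e).succ else (a e).castSucc) : Fin (n + 1 + 1)) : ℕ) =
          (e : H) ^ (a e : ℕ) * (if e = ⟨e0, he0⟩ then e0 else 1) := by
        intro e
        by_cases h : e = ⟨e0, he0⟩
        · rw [if_pos h, if_pos h, Fin.val_succ, pow_succ]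
          rw [h]
        · rw [if_neg h, if_neg h, mul_one]
          rfl
      rw [Finset.prod_congr rfl (fun e _ => h1 e), Finset.prod_mul_distrib, Finset.prod_ite_eq']
      simp
  have h2 : E ^ n ⊆ Finset.univ.image (fun a : E → Fin (n + 1) => ∏ e : E, (e : H) ^ (a e : ℕ)) := by
    intro x hx
    obtain ⟨a, ha⟩ := key n x hx
    rw [Finset.mem_image]
    exact ⟨a, Finset.mem_univ _, ha.symm⟩
  calc (E ^ n).card ≤ _ := Finset.card_le_card h2
    _ ≤ _ := Finset.card_image_le
    _ = (n + 1) ^ E.card := by
      rw [Finset.card_univ, Fintype.card_fun, Fintype.card_fin, Fintype.card_coe]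

open Classical in
/-- Almost invariant finite sets. -/
theorem folner {H : Type} [CommMonoid H] (E : Finset H) (hE : E.Nonempty) :
    ∃ n : ℕ, (E ^ n).Nonempty ∧ 5 * (E ^ n * E).card ≤ 7 * (E ^ n).card := by
  have hne : ∀ n : ℕ, (E ^ n).Nonempty := fun n => hE.pow
  by_contra hcon
  push Not at hcon
  have h1 : ∀ n : ℕ, (7 / 5 : ℝ) ^ n ≤ (E ^ n).card := by
    intro n
    induction n with
    | zero => simp
    | succ n ih =>
      have h2 := hcon n (hne n)
      rw [← pow_succ] at h2
      have h3 : (7 : ℝ) * (E ^ n).card < 5 * (E ^ (n + 1)).card := by exact_mod_cast h2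
      rw [pow_succ]
      linarith
  have h2 : ∀ n : ℕ, (7 / 5 : ℝ) ^ n ≤ ((n : ℝ) + 1) ^ E.card := by
    intro n
    refine (h1 n).trans ?_
    exact_mod_cast card_pow_le E n
  have h3 := tendsto_pow_const_div_const_pow_of_one_lt E.card (show (1 : ℝ) < 7 / 5 by norm_num)
  have h4 : ∀ᶠ n : ℕ in Filter.atTop, (n : ℝ) ^ E.card / (7 / 5 : ℝ) ^ n < 5 / 7 :=
    h3.eventually (gt_mem_nhds (by norm_num))
  obtain ⟨N, hN⟩ := Filter.eventually_atTop.1 h4
  have h5 := hN (N + 1) (by omega)
  have h6 := h2 N
  rw [div_lt_iff₀ (by positivity), pow_succ] at h5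
  push_cast at h5
  linarith

open Classical in
theorem folnerAff (E : Finset Aff) (hE : E.Nonempty) :
    ∃ B : Finset Aff, B.Nonempty ∧ (B * E).card < 2 * B.card := by
  -- slopes
  obtain ⟨n, hn, hn1⟩ := folner (E.image Aff.l) (hE.image _)
  set M : Finset ℝ := (E.image Aff.l) ^ n with hM
  have hMpos : ∀ m ∈ M, 0 < m := by
    have : ∀ n : ℕ, ∀ m ∈ (E.image Aff.l) ^ n, 0 < m := by
      intro n
      induction n with
      | zero =>
        intro m hm
        rw [pow_zero, Finset.mem_one] at hm
        rw [hm]; exact one_pos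
      | succ n ih =>
        intro m hm
        rw [pow_succ, Finset.mem_mul] at hm
        obtain ⟨y, hy, e, he, rfl⟩ := hm
        obtain ⟨g, _, rfl⟩ := Finset.mem_image.1 he
        exact mul_pos (ih y hy) g.hl
    exact this n
  -- translations
  set F : Finset (Multiplicative ℝ) := (M ×ˢ E).image (fun p => Multiplicative.ofAdd (p.1 * p.2.b)) with hF
  have hFne : F.Nonempty := (hn.product hE).image _
  obtain ⟨m, hm, hm1⟩ := folner F hFne
  set C : Finset (Multiplicative ℝ) := F ^ m with hC
  set B : Finset Aff := (C ×ˢ M.attach).image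
    (fun p => (⟨p.2.1, hMpos _ p.2.2, Multiplicative.toAdd p.1⟩ : Aff)) with hB
  have hBcard : B.card = C.card * M.card := by
    rw [hB, Finset.card_image_of_injective, Finset.card_product, Finset.card_attach]
    rintro ⟨c, μ⟩ ⟨c', μ'⟩ h
    simp only [Aff.mk.injEq] at h
    refine Prod.ext ?_ ?_
    · exact Multiplicative.toAdd.injective h.2
    · exact Subtype.ext h.1
  have hBne : B.Nonempty := by
    apply Finset.Nonempty.image
    exact hm.product (Finset.attach_nonempty_iff.2 hn)
  refine ⟨B, hBne, ?_⟩
  -- the product set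
  have hsub : (B * E).card ≤ (C * F).card * (M * E.image Aff.l).card := by
    rw [← Finset.card_product]
    apply Finset.card_le_card_of_injOn (fun g : Aff => (Multiplicative.ofAdd g.b, g.l))
    · intro g hg
      rw [Finset.mem_coe] at hg
      obtain ⟨h, hh, e, he, rfl⟩ := Finset.mem_mul.1 hg
      rw [hB, Finset.mem_image] at hh
      obtain ⟨⟨c, μ⟩, hcμ, rfl⟩ := hh
      rw [Finset.mem_product] at hcμ
      rw [Finset.mem_coe, Finset.mem_product]
      constructor
      · apply Finset.mem_mul.2
        refine ⟨c, hcμ.1, Multiplicative.ofAdd (μ.1 * e.b), ?_, ?_⟩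
        · rw [hF, Finset.mem_image]
          exact ⟨(μ.1, e), Finset.mem_product.2 ⟨μ.2, he⟩, rfl⟩
        · apply Multiplicative.toAdd.injective
          change Multiplicative.toAdd c + μ.1 * e.b = μ.1 * e.b + Multiplicative.toAdd c
          ring
      · apply Finset.mem_mul.2
        exact ⟨μ.1, μ.2, e.l, Finset.mem_image_of_mem _ he, rfl⟩
    · intro g _ h _ hgh
      simp only [Prod.mk.injEq] at hgh
      ext
      · exact hgh.2
      · exact Multiplicative.ofAdd.injective hgh.1
  have h1 : 25 * ((C * F).card * (M * E.image Aff.l).card) ≤ 49 * (C.card * M.card) := by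
    calc 25 * ((C * F).card * (M * E.image Aff.l).card)
        = (5 * (C * F).card) * (5 * (M * E.image Aff.l).card) := by ring
      _ ≤ (7 * C.card) * (7 * M.card) := Nat.mul_le_mul hm1 hn1
      _ = 49 * (C.card * M.card) := by ring
  have h2 : 0 < B.card := Finset.card_pos.2 hBne
  rw [← hBcard] at h1
  omega

/-- Combination of a finite set. -/
noncomputable def comb (B : Finset Aff) : (B → ℚ) →ₗ[ℚ] A where
  toFun u := ∑ g : B, MonoidAlgebra.single (g : Aff) (u g)
  map_add' u v := by
    rw [← Finset.sum_add_distrib]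
    exact Finset.sum_congr rfl (fun g _ => MonoidAlgebra.single_add _ _ _)
  map_smul' c u := by
    rw [Finset.smul_sum]
    exact Finset.sum_congr rfl (fun g _ => by
      rw [MonoidAlgebra.smul_single]; rfl)

open Classical in
theorem comb_coeff (B : Finset Aff) (u : B → ℚ) (g : Aff) :
    (comb B u).coeff g = if h : g ∈ B then u ⟨g, h⟩ else 0 := by
  change (∑ g : B, MonoidAlgebra.single (g : Aff) (u g)).coeff g = _
  rw [MonoidAlgebra.coeff_sum, Finsupp.finsetSum_apply]
  simp only [MonoidAlgebra.coeff_single, Finsupp.single_apply]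
  by_cases h : g ∈ B
  · rw [dif_pos h, Finset.sum_eq_single ⟨g, h⟩]
    · rw [if_pos rfl]
    · intro b _ hb
      rw [if_neg]
      intro h2
      exact hb (Subtype.ext h2)
    · intro h2; exact absurd (Finset.mem_univ _) h2
  · rw [dif_neg h]
    apply Finset.sum_eq_zero
    intro b _
    rw [if_neg]
    intro h2
    rw [← h2] at h
    exact h b.2

open Classical in
theorem comb_support (B : Finset Aff) (u : B → ℚ) : (comb B u).coeff.support ⊆ B := by
  intro g hg
  rw [Finsupp.mem_support_iff, comb_coeff] at hg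
  by_contra h
  rw [dif_neg h] at hg
  exact hg rfl

theorem comb_inj (B : Finset Aff) (u : B → ℚ) (h : comb B u = 0) : u = 0 := by
  classical
  funext g
  have h1 := comb_coeff B u g
  rw [h, dif_pos g.2] at h1
  exact h1.symm

theorem ore_exists (r s : A) (hr : r ≠ 0) (hs : s ≠ 0) : ∃ a b : A, a ≠ 0 ∧ b ≠ 0 ∧ a * r = b * s := by
  classical
  obtain ⟨B, hB, hcard⟩ := folnerAff (r.coeff.support ∪ s.coeff.support)
    ((supp_nonempty hr).mono Finset.subset_union_left)
  set E := r.coeff.support ∪ s.coeff.support with hE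
  let Psi : ((B → ℚ) × (B → ℚ)) →ₗ[ℚ] ((B * E : Finset Aff) → ℚ) :=
    { toFun := fun p g => (comb B p.1 * r - comb B p.2 * s).coeff g
      map_add' := by
        intro p q
        funext g
        simp only [Prod.fst_add, Prod.snd_add, map_add, add_mul, MonoidAlgebra.coeff_sub,
          MonoidAlgebra.coeff_add, Finsupp.sub_apply, Finsupp.add_apply, Pi.add_apply]
        ring
      map_smul' := by
        intro c p
        funext g
        simp only [Prod.smul_fst, Prod.smul_snd, map_smul, smul_mul_assoc, MonoidAlgebra.coeff_sub,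
          MonoidAlgebra.coeff_smul, Finsupp.sub_apply, Finsupp.smul_apply, Pi.smul_apply, smul_eq_mul,
          RingHom.id_apply]
        ring }
  have hker : LinearMap.ker Psi ≠ ⊥ := by
    apply LinearMap.ker_ne_bot_of_finrank_lt
    rw [Module.finrank_prod, Module.finrank_fintype_fun_eq_card, Module.finrank_fintype_fun_eq_card,
      Fintype.card_coe, Fintype.card_coe]
    omega
  obtain ⟨⟨u, v⟩, huv, hne⟩ := Submodule.exists_mem_ne_zero_of_ne_bot hker
  have hzero : comb B u * r - comb B v * s = 0 := by
    rw [← MonoidAlgebra.coeff_eq_zero]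
    ext g
    by_cases hg : g ∈ B * E
    · have := congrFun (LinearMap.mem_ker.1 huv) ⟨g, hg⟩
      exact this
    · have h1 : (comb B u * r).coeff g = 0 := by
        by_contra h2
        apply hg
        have h3 := MonoidAlgebra.support_coeff_mul_subset (comb B u) r (Finsupp.mem_support_iff.2 h2)
        exact Finset.mul_subset_mul (comb_support B u) Finset.subset_union_left h3
      have h2 : (comb B v * s).coeff g = 0 := by
        by_contra h2
        apply hg
        have h3 := MonoidAlgebra.support_coeff_mul_subset (comb B v) s (Finsupp.mem_support_iff.2 h2)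
        exact Finset.mul_subset_mul (comb_support B v) Finset.subset_union_right h3
      rw [MonoidAlgebra.coeff_sub, Finsupp.sub_apply, h1, h2, sub_zero]
      rfl
  have heq : comb B u * r = comb B v * s := sub_eq_zero.1 hzero
  have hu : comb B u ≠ 0 := by
    intro h
    have h1 : u = 0 := comb_inj B u h
    rw [h, zero_mul] at heq
    have h2 : comb B v = 0 := by
      rcases mul_eq_zero.1 heq.symm with h3 | h3
      · exact h3
      · exact absurd h3 hs
    have h3 : v = 0 := comb_inj B v h2
    apply hne
    rw [h1, h3]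
    rfl
  refine ⟨comb B u, comb B v, hu, ?_, heq⟩
  intro h
  rw [h, zero_mul] at heq
  rcases mul_eq_zero.1 heq with h3 | h3
  · exact hu h3
  · exact hr h3

theorem ore (r : A) (s : nonZeroDivisors A) :
    ∃ (r' : A) (s' : nonZeroDivisors A), (s' : A) * r = r' * s := by
  by_cases hr : r = 0
  · refine ⟨0, 1, ?_⟩
    rw [hr, mul_zero, zero_mul]
  · obtain ⟨a, b, ha, hb, h⟩ := ore_exists r s hr (nonZeroDivisors.ne_zero s.2)
    exact ⟨b, ⟨a, mem_nonZeroDivisors_of_ne_zero ha⟩, h⟩

noncomputable instance : OreLocalization.OreSet (nonZeroDivisors A) :=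
  (OreLocalization.nonempty_oreSet_iff_of_noZeroDivisors.2 ore).some

end Pool.Agent.Helper211.AffAlg
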