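import Mathlib

set_option autoImplicit false

namespace Pool.Agent.Helper211.LeavittMod

open MonoidAlgebra

/-! ### Abstract construction

Given an additive map from a ring `S` to a ring `L`, such that right multiplication by four elements of `S`
is carried to right multiplication by four elements of `L` satisfying the Leavitt relations, the quotient of
`S` by the largest left ideal inside the kernel is isomorphic to its own square. -/

section Abstract

variable {S L : Type} [Ring S] [Ring L]

/-- The largest left ideal in the kernel of `Phi`. -/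
def bigIdeal (Phi : S →+ L) : Submodule S S where
  carrier := {s | ∀ s' : S, Phi (s' * s) = 0}
  add_mem' := by
    intro a b ha hb s'
    rw [mul_add, map_add, ha s', hb s', add_zero]
  zero_mem' := by
    intro s'
    simp
  smul_mem' := by
    intro c x hx s'
    rw [smul_eq_mul, ← mul_assoc]
    exact hx _

theorem mem_bigIdeal (Phi : S →+ L) (s : S) : s ∈ bigIdeal Phi ↔ ∀ s' : S, Phi (s' * s) = 0 :=
  Iff.rfl

variable (Phi : S →+ L)

/-- Right multiplication by `x` on the quotient. -/
def rmul (x : S) (a : L) (h : ∀ s, Phi (s * x) = Phi s * a) :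
    (S ⧸ bigIdeal Phi) →ₗ[S] (S ⧸ bigIdeal Phi) :=
  (bigIdeal Phi).mapQ (bigIdeal Phi) (LinearMap.toSpanSingleton S S x) (by
    intro s hs
    rw [Submodule.mem_comap, mem_bigIdeal]
    intro s'
    rw [LinearMap.toSpanSingleton_apply, smul_eq_mul, ← mul_assoc, h, hs s', zero_mul])

theorem rmul_mk (x : S) (a : L) (h : ∀ s, Phi (s * x) = Phi s * a) (s : S) :
    rmul Phi x a h (Submodule.Quotient.mk s) = Submodule.Quotient.mk (s * x) := by
  unfold rmul
  rw [Submodule.mapQ_apply, LinearMap.toSpanSingleton_apply, smul_eq_mul]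

theorem mk_eq (s u : S) (h : ∀ s', Phi (s' * s) = Phi (s' * u)) :
    (Submodule.Quotient.mk s : S ⧸ bigIdeal Phi) = Submodule.Quotient.mk u := by
  rw [Submodule.Quotient.eq, mem_bigIdeal]
  intro s'
  rw [mul_sub, map_sub, h, sub_self]

theorem abstract_result (h1 : Phi 1 ≠ 0)
    (x y x' y' : S) (a b a' b' : L)
    (hx : ∀ s, Phi (s * x) = Phi s * a) (hy : ∀ s, Phi (s * y) = Phi s * b)
    (hx' : ∀ s, Phi (s * x') = Phi s * a') (hy' : ∀ s, Phi (s * y') = Phi s * b')
    (haa : a * a' = 1) (hab : a * b' = 0) (hba : b * a' = 0) (hbb : b * b' = 1)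
    (hsum : a' * a + b' * b = 1) :
    Nontrivial (S ⧸ bigIdeal Phi) ∧
    (∃ v : (S ⧸ bigIdeal Phi), Submodule.span S {v} = ⊤) ∧
    Nonempty ((S ⧸ bigIdeal Phi) ≃ₗ[S] ((S ⧸ bigIdeal Phi) × (S ⧸ bigIdeal Phi))) := by
  refine ⟨?_, ?_, ?_⟩
  · refine ⟨⟨Submodule.Quotient.mk 1, Submodule.Quotient.mk 0, ?_⟩⟩
    intro h
    rw [Submodule.Quotient.eq, sub_zero, mem_bigIdeal] at h
    have := h 1
    rw [mul_one] at this
    exact h1 this
  · refine ⟨Submodule.Quotient.mk 1, ?_⟩
    rw [Submodule.eq_top_iff']
    intro v
    induction v using Submodule.Quotient.induction_on with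
    | _ s =>
      rw [Submodule.mem_span_singleton]
      refine ⟨s, ?_⟩
      rw [← Submodule.Quotient.mk_smul, smul_eq_mul, mul_one]
  · have e1 : ∀ w : (S ⧸ bigIdeal Phi), (((rmul Phi x' a' hx').prod (rmul Phi y' b' hy')) w) =
        (rmul Phi x' a' hx' w, rmul Phi y' b' hy' w) := fun w => rfl
    have e2 : ∀ u v : (S ⧸ bigIdeal Phi), (((rmul Phi x a hx).coprod (rmul Phi y b hy)) (u, v)) =
        rmul Phi x a hx u + rmul Phi y b hy v := fun u v => by
      rw [LinearMap.coprod_apply]
    refine ⟨LinearEquiv.ofLinearMap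
      ((rmul Phi x' a' hx').prod (rmul Phi y' b' hy'))
      ((rmul Phi x a hx).coprod (rmul Phi y b hy)) ?_ ?_⟩
    · apply LinearMap.ext
      rintro ⟨u, v⟩
      induction u using Submodule.Quotient.induction_on with
      | _ u =>
      induction v using Submodule.Quotient.induction_on with
      | _ v =>
      rw [LinearMap.comp_apply, e2, rmul_mk, rmul_mk, ← Submodule.Quotient.mk_add, e1, rmul_mk, rmul_mk,
        LinearMap.id_apply]
      refine Prod.ext ?_ ?_
      · apply mk_eq
        intro s'
        rw [add_mul, mul_add, map_add, ← mul_assoc, ← mul_assoc, ← mul_assoc, ← mul_assoc, hx', hx, hx', hy,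
          mul_assoc, haa, mul_assoc, hba, mul_one, mul_zero, add_zero]
      · apply mk_eq
        intro s'
        rw [add_mul, mul_add, map_add, ← mul_assoc, ← mul_assoc, ← mul_assoc, ← mul_assoc, hy', hx, hy', hy,
          mul_assoc, hab, mul_assoc, hbb, mul_one, mul_zero, zero_add]
    · apply LinearMap.ext
      intro u
      induction u using Submodule.Quotient.induction_on with
      | _ u =>
      rw [LinearMap.comp_apply, e1, e2, rmul_mk, rmul_mk, rmul_mk, rmul_mk, ← Submodule.Quotient.mk_add,
        LinearMap.id_apply]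
      apply mk_eq
      intro s'
      rw [mul_add, map_add, ← mul_assoc, ← mul_assoc, ← mul_assoc, ← mul_assoc, hx, hx', hy, hy',
        mul_assoc, mul_assoc, ← mul_add, hsum, mul_one]

end Abstract

/-! ### The lamplighter style group -/

/-- Pairs of a function from the integers to an additive group and an integer (the shift). -/
@[ext] structure W (D : Type) where
  f : ℤ → D
  n : ℤ

namespace W

variable {D : Type} [AddCommGroup D]

instance : Mul (W D) := ⟨fun p q => ⟨fun i => p.f i + q.f (i - p.n), p.n + q.n⟩⟩
instance : One (W D) := ⟨⟨fun _ => 0, 0⟩⟩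
instance : Inv (W D) := ⟨fun p => ⟨fun i => - p.f (i + p.n), - p.n⟩⟩

theorem mul_f (p q : W D) (i : ℤ) : (p * q).f i = p.f i + q.f (i - p.n) := rfl
theorem mul_n (p q : W D) : (p * q).n = p.n + q.n := rfl
theorem one_f (i : ℤ) : (1 : W D).f i = 0 := rfl
theorem one_n : (1 : W D).n = 0 := rfl
theorem inv_f (p : W D) (i : ℤ) : (p⁻¹).f i = - p.f (i + p.n) := rfl
theorem inv_n (p : W D) : (p⁻¹).n = - p.n := rfl

instance : Group (W D) :=
  Group.ofLeftAxioms
    (by
      intro p q r
      ext i
      · simp only [mul_f, mul_n, add_assoc]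
        congr 3
        ring
      · simp only [mul_n, add_assoc])
    (by
      intro p
      ext i
      · simp only [mul_f, one_f, one_n, zero_add, sub_zero]
      · simp only [mul_n, one_n, zero_add])
    (by
      intro p
      ext i
      · simp only [mul_f, inv_f, inv_n, one_f, sub_neg_eq_add, neg_add_cancel]
      · simp only [mul_n, inv_n, one_n, neg_add_cancel])

/-- The shift coordinate is a homomorphism. -/
def deg : W D →* Multiplicative ℤ where
  toFun p := Multiplicative.ofAdd p.n
  map_one' := rfl
  map_mul' _ _ := rfl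

theorem derived_eq_bot : derivedSeries (W D) 2 = ⊥ := by
  have h1 : derivedSeries (W D) 1 ≤ (deg (D := D)).ker := by
    rw [derivedSeries_one]
    exact Abelianization.commutator_subset_ker _
  rw [derivedSeries_succ, eq_bot_iff, Subgroup.commutator_le]
  intro p hp q hq
  have hp' : p.n = 0 := by
    have := h1 hp
    rw [MonoidHom.mem_ker] at this
    exact Multiplicative.ofAdd.injective this
  have hq' : q.n = 0 := by
    have := h1 hq
    rw [MonoidHom.mem_ker] at this
    exact Multiplicative.ofAdd.injective this
  rw [Subgroup.mem_bot, commutatorElement_eq_one_iff_mul_comm]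
  ext i
  · rw [mul_f, mul_f, hp', hq', sub_zero, add_comm]
  · rw [mul_n, mul_n, hp', hq']

end W

/-! ### The additive functional -/

section Functional

variable {L : Type} [Ring L]

/-- The ordered product of the values at `1, ..., k`. -/
def P (f : ℤ → L) : ℕ → L
  | 0 => 1
  | (k + 1) => P f k * f ((k : ℤ) + 1)

/-- The functional on group elements. -/
def phi (g : W L) : L :=
  match g.n with
  | Int.ofNat k => P g.f k
  | Int.negSucc _ => 0

theorem P_congr (f f' : ℤ → L) (k : ℕ) (h : ∀ i : ℤ, i ≤ k → f i = f' i) : P f k = P f' k := by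
  induction k with
  | zero => rfl
  | succ k ih =>
    simp only [P]
    rw [ih (fun i hi => h i (by push_cast; omega)), h _ (by push_cast; omega)]

/-- The element with value `d` at position one, and shift one. -/
def gen (d : L) : W L := ⟨fun i => if i = 1 then d else 0, 1⟩

theorem phi_mul_gen (g : W L) (d : L) : phi (g * gen d) = phi (g * gen 0) + phi g * d := by
  obtain ⟨f, n⟩ := g
  have hn : ∀ c : L, (⟨f, n⟩ * gen c : W L) = ⟨fun i => f i + (if i - n = 1 then c else 0), n + 1⟩ := by
    intro c
    rfl
  rw [hn, hn]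
  cases n with
  | ofNat k =>
    have e : Int.ofNat k + 1 = Int.ofNat (k + 1) := rfl
    simp only [phi, e, P]
    have hk : ∀ c : L, P (fun i => f i + (if i - Int.ofNat k = 1 then c else 0)) k = P f k := by
      intro c
      apply P_congr
      intro i hi
      have hne : ¬ (i - Int.ofNat k = 1) := by
        have : (Int.ofNat k : ℤ) = (k : ℤ) := rfl
        omega
      rw [if_neg hne, add_zero]
    rw [hk, hk]
    have h1 : ((k : ℤ) + 1) - Int.ofNat k = 1 := by
      have : (Int.ofNat k : ℤ) = (k : ℤ) := rfl
      omega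
    simp only [h1, if_true, add_zero, mul_add]
  | negSucc k =>
    cases k with
    | zero =>
      have e : Int.negSucc 0 + 1 = Int.ofNat 0 := rfl
      simp only [phi, e, P, zero_mul, add_zero]
    | succ k =>
      have e : Int.negSucc (k + 1) + 1 = Int.negSucc k := by
        omega
      simp only [phi, e, zero_mul, add_zero]

end Functional

/-! ### Operators satisfying the Leavitt relations -/

section Leavitt

/-- Additive endomorphisms of integer sequences. -/
abbrev Op : Type := Module.End ℤ (ℕ → ℤ)

def opA : Op := LinearMap.funLeft ℤ ℤ (fun n : ℕ => 2 * n)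
def opB : Op := LinearMap.funLeft ℤ ℤ (fun n : ℕ => 2 * n + 1)

def opE : Op where
  toFun u n := if n % 2 = 0 then u (n / 2) else 0
  map_add' u v := by
    funext n
    simp only [Pi.add_apply]
    split_ifs <;> simp
  map_smul' c u := by
    funext n
    simp only [Pi.smul_apply, RingHom.id_apply]
    split_ifs <;> simp

def opO : Op where
  toFun u n := if n % 2 = 1 then u (n / 2) else 0
  map_add' u v := by
    funext n
    simp only [Pi.add_apply]
    split_ifs <;> simp
  map_smul' c u := by
    funext n
    simp only [Pi.smul_apply, RingHom.id_apply]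
    split_ifs <;> simp

theorem opA_apply (u : ℕ → ℤ) (n : ℕ) : opA u n = u (2 * n) := rfl
theorem opB_apply (u : ℕ → ℤ) (n : ℕ) : opB u n = u (2 * n + 1) := rfl
theorem opE_apply (u : ℕ → ℤ) (n : ℕ) : opE u n = if n % 2 = 0 then u (n / 2) else 0 := rfl
theorem opO_apply (u : ℕ → ℤ) (n : ℕ) : opO u n = if n % 2 = 1 then u (n / 2) else 0 := rfl

theorem opAE : opA * opE = 1 := by
  apply LinearMap.ext; intro u; funext n
  rw [Module.End.mul_apply, opA_apply, opE_apply, Module.End.one_apply]
  have h1 : 2 * n % 2 = 0 := by omega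
  have h2 : 2 * n / 2 = n := by omega
  rw [if_pos h1, h2]

theorem opAO : opA * opO = 0 := by
  apply LinearMap.ext; intro u; funext n
  rw [Module.End.mul_apply, opA_apply, opO_apply]
  have h1 : ¬ (2 * n % 2 = 1) := by omega
  rw [if_neg h1]
  rfl

theorem opBE : opB * opE = 0 := by
  apply LinearMap.ext; intro u; funext n
  rw [Module.End.mul_apply, opB_apply, opE_apply]
  have h1 : ¬ ((2 * n + 1) % 2 = 0) := by omega
  rw [if_neg h1]
  rfl

theorem opBO : opB * opO = 1 := by
  apply LinearMap.ext; intro u; funext n
  rw [Module.End.mul_apply, opB_apply, opO_apply, Module.End.one_apply]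
  have h1 : (2 * n + 1) % 2 = 1 := by omega
  have h2 : (2 * n + 1) / 2 = n := by omega
  rw [if_pos h1, h2]

theorem opSum : opE * opA + opO * opB = 1 := by
  apply LinearMap.ext; intro u; funext n
  rw [LinearMap.add_apply, Pi.add_apply, Module.End.mul_apply, Module.End.mul_apply, opE_apply, opO_apply,
    opA_apply, opB_apply, Module.End.one_apply]
  rcases Nat.mod_two_eq_zero_or_one n with h | h
  · have h1 : ¬ (n % 2 = 1) := by omega
    have h2 : 2 * (n / 2) = n := by omega
    rw [if_pos h, if_neg h1, h2, add_zero]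
  · have h1 : ¬ (n % 2 = 0) := by omega
    have h2 : 2 * (n / 2) + 1 = n := by omega
    rw [if_pos h, if_neg h1, h2, zero_add]

end Leavitt

/-! ### The group and the module -/

/-- The finite generating set. -/
noncomputable def gens : Finset (W Op) := by
  classical
  exact {gen 0, gen opA, gen opB, gen opE, gen opO}

/-- The finitely generated group with trivial second derived subgroup. -/
abbrev G : Type := Subgroup.closure ((gens : Finset (W Op)) : Set (W Op))

theorem mem0 : gen 0 ∈ Subgroup.closure ((gens : Finset (W Op)) : Set (W Op)) :=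
  Subgroup.subset_closure (by simp [gens])
theorem memA : gen opA ∈ Subgroup.closure ((gens : Finset (W Op)) : Set (W Op)) :=
  Subgroup.subset_closure (by simp [gens])
theorem memB : gen opB ∈ Subgroup.closure ((gens : Finset (W Op)) : Set (W Op)) :=
  Subgroup.subset_closure (by simp [gens])
theorem memE : gen opE ∈ Subgroup.closure ((gens : Finset (W Op)) : Set (W Op)) :=
  Subgroup.subset_closure (by simp [gens])
theorem memO : gen opO ∈ Subgroup.closure ((gens : Finset (W Op)) : Set (W Op)) :=
  Subgroup.subset_closure (by simp [gens])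

theorem G_fg : Group.FG G := by
  rw [Group.fg_iff_subgroup_fg]
  exact ⟨gens, rfl⟩

theorem G_derived : derivedSeries G 2 = ⊥ := by
  have h := map_derivedSeries_le_derivedSeries (G := G) (G' := W Op)
    (Subgroup.closure ((gens : Finset (W Op)) : Set (W Op))).subtype 2
  rw [W.derived_eq_bot, le_bot_iff] at h
  exact (Subgroup.map_eq_bot_iff_of_injective _ (Subgroup.subtype_injective _)).1 h

/-- The additive functional on the group ring. -/
noncomputable def Phi : MonoidAlgebra ℤ G →+ Op :=
  MonoidAlgebra.liftNC (Int.castAddHom Op) (fun g : G => phi (g : W Op))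

theorem Phi_single (g : G) (c : ℤ) : Phi (MonoidAlgebra.single g c) = (c : Op) * phi (g : W Op) := by
  unfold Phi
  rw [MonoidAlgebra.liftNC_single]
  rfl

theorem Phi_one : Phi 1 = 1 := by
  rw [MonoidAlgebra.one_def, Phi_single, Int.cast_one, one_mul]
  rfl

theorem Phi_mul (d : Op) (hd : gen d ∈ Subgroup.closure ((gens : Finset (W Op)) : Set (W Op)))
    (s : MonoidAlgebra ℤ G) :
    Phi (s * (MonoidAlgebra.single (⟨gen d, hd⟩ : G) 1 - MonoidAlgebra.single (⟨gen 0, mem0⟩ : G) 1)) =
      Phi s * d := by
  induction s using MonoidAlgebra.induction_linear with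
  | zero => simp
  | add s u hs hu => rw [add_mul, map_add, hs, hu, map_add, add_mul]
  | single g c =>
    rw [mul_sub, MonoidAlgebra.single_mul_single, MonoidAlgebra.single_mul_single, map_sub, Phi_single,
      Phi_single, Phi_single, mul_one]
    have h1 : (((g * (⟨gen d, hd⟩ : G) : G)) : W Op) = (g : W Op) * gen d := rfl
    have h2 : (((g * (⟨gen 0, mem0⟩ : G) : G)) : W Op) = (g : W Op) * gen 0 := rfl
    rw [h1, h2, phi_mul_gen, mul_add, add_sub_cancel_left, mul_assoc]

theorem final :
    ∃ (G : Type) (_ : Group G), Group.FG G ∧ derivedSeries G 2 = ⊥ ∧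
      ∃ (V : Type) (_ : AddCommGroup V) (_ : Module (MonoidAlgebra ℤ G) V),
        Nontrivial V ∧
        (∃ v : V, Submodule.span (MonoidAlgebra ℤ G) {v} = ⊤) ∧
        Nonempty (V ≃ₗ[MonoidAlgebra ℤ G] (V × V)) := by
  refine ⟨G, inferInstance, G_fg, G_derived, (MonoidAlgebra ℤ G) ⧸ bigIdeal Phi, inferInstance,
    inferInstance, ?_⟩
  refine abstract_result Phi ?_ _ _ _ _ opA opB opE opO (Phi_mul opA memA) (Phi_mul opB memB)
    (Phi_mul opE memE) (Phi_mul opO memO) opAE opAO opBE opBO opSum
  rw [Phi_one]
  exact one_ne_zero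

end Pool.Agent.Helper211.LeavittMod
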