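import Mathlib

set_option autoImplicit false

open scoped BigOperators Matrix

namespace Pool.Agent.Helper211.PST

/-! Perfect state transfer on graphs whose order is cubic in the diameter. -/

section Graph

variable {C : Type} [AddCommGroup C] [Fintype C] [DecidableEq C]
variable (N : ℕ) (S D : ℕ → Finset C)

/-- The vertex set: two special vertices and `N` cells, each a copy of `C`. -/
abbrev Vx (N : ℕ) (C : Type) := Bool ⊕ (Fin N × C)

/-- Adjacency. -/
def adj : Vx N C → Vx N C → Prop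
  | Sum.inl x, Sum.inl y => x ≠ y
  | Sum.inl _, Sum.inr q => (q.1 : ℕ) = 0
  | Sum.inr p, Sum.inl _ => (p.1 : ℕ) = 0
  | Sum.inr p, Sum.inr q =>
      ((p.1 : ℕ) = q.1 ∧ p.2 + q.2 ∈ S (p.1 + 1)) ∨
      ((p.1 : ℕ) + 1 = q.1 ∧ p.2 + q.2 ∈ D (p.1 + 1)) ∨
      ((q.1 : ℕ) + 1 = p.1 ∧ p.2 + q.2 ∈ D (q.1 + 1))

instance : DecidableRel (adj (C := C) N S D) := by
  intro u v
  cases u <;> cases v <;> (unfold adj; infer_instance)

/-- The graph. -/
def gr (h2 : ∀ c : C, c + c = 0) (hS : ∀ n, (0 : C) ∉ S n) : SimpleGraph (Vx N C) where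
  Adj := adj N S D
  symm := ⟨by
    intro u v h
    rcases u with x | p <;> rcases v with y | q
    · exact Ne.symm h
    · exact h
    · exact h
    · rcases h with ⟨h1, h3⟩ | ⟨h1, h3⟩ | ⟨h1, h3⟩
      · refine Or.inl ⟨h1.symm, ?_⟩
        rw [← h1, add_comm q.2 p.2]; exact h3
      · refine Or.inr (Or.inr ⟨h1, ?_⟩)
        rw [add_comm q.2 p.2]; exact h3
      · refine Or.inr (Or.inl ⟨h1, ?_⟩)
        rw [add_comm q.2 p.2]; exact h3⟩
  loopless := ⟨by
    intro u h
    rcases u with x | p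
    · exact h rfl
    · rcases h with ⟨h1, h3⟩ | ⟨h1, h3⟩ | ⟨h1, h3⟩
      · rw [h2] at h3; exact hS _ h3
      · omega
      · omega⟩

/-- level of a vertex -/
def lev : Vx N C → ℕ
  | Sum.inl _ => 0
  | Sum.inr p => p.1 + 1

/-- the vector attached to a sequence `g` -/
noncomputable def vec (g : ℕ → ℂ) : Vx N C → ℂ
  | Sum.inl _ => (N : ℂ) * g 0
  | Sum.inr p => (-1) ^ ((p.1 : ℕ) + 1) * g (p.1 + 1)

lemma card_shift (c : C) (T : Finset C) :
    (∑ d : C, if c + d ∈ T then (1 : ℂ) else 0) = (T.card : ℂ) := by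
  rw [Finset.sum_ite, Finset.sum_const_zero, add_zero, Finset.sum_const, nsmul_eq_mul, mul_one]
  congr 1
  refine Finset.card_bij (fun d _ => c + d) ?_ ?_ ?_
  · intro d hd
    simpa using hd
  · intro d _ e _ h
    exact add_left_cancel h
  · intro t ht
    refine ⟨-c + t, ?_, by abel⟩
    simp [ht]

/-- the tridiagonal operator on sequences -/
noncomputable def op (g : ℕ → ℂ) : ℕ → ℂ := fun n =>
  (4 * n * ((N : ℂ) - n) + 1) * g n - 2 * (n + 1) * ((N : ℂ) - n) * g (n + 1)
    - 2 * n * ((N : ℂ) + 1 - n) * g (n - 1)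

omit [Fintype C] in
lemma adj_ite (p q : Fin N × C) :
    (if adj N S D (Sum.inr p) (Sum.inr q) then (1 : ℂ) else 0) =
      (if (p.1 : ℕ) = q.1 then (if p.2 + q.2 ∈ S (p.1 + 1) then (1 : ℂ) else 0) else 0) +
      (if (p.1 : ℕ) + 1 = q.1 then (if p.2 + q.2 ∈ D (p.1 + 1) then (1 : ℂ) else 0) else 0) +
      (if (q.1 : ℕ) + 1 = p.1 then (if p.2 + q.2 ∈ D (q.1 + 1) then (1 : ℂ) else 0) else 0) := by
  have key : adj N S D (Sum.inr p) (Sum.inr q) ↔
      ((p.1 : ℕ) = q.1 ∧ p.2 + q.2 ∈ S (p.1 + 1)) ∨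
      ((p.1 : ℕ) + 1 = q.1 ∧ p.2 + q.2 ∈ D (p.1 + 1)) ∨
      ((q.1 : ℕ) + 1 = p.1 ∧ p.2 + q.2 ∈ D (q.1 + 1)) := Iff.rfl
  simp only [key]
  by_cases h1 : (p.1 : ℕ) = q.1
  · have h2 : ¬ (p.1 : ℕ) + 1 = q.1 := by omega
    have h3 : ¬ (q.1 : ℕ) + 1 = p.1 := by omega
    simp [h1]
  · by_cases h2 : (p.1 : ℕ) + 1 = q.1
    · have h3 : ¬ (q.1 : ℕ) + 1 = p.1 := by omega
      simp [h1, h2, h3]
    · by_cases h3 : (q.1 : ℕ) + 1 = p.1
      · simp [h1, h2, h3]
      · simp [h1, h2, h3]

lemma mulVec_vec (h2 : ∀ c : C, c + c = 0) (hS : ∀ n, (0 : C) ∉ S n)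
    (hN : 1 ≤ N) (hC : Fintype.card C = 2 * N ^ 2)
    (cS : ∀ n, 1 ≤ n → n ≤ N → (S n).card = 4 * n * (N - n) + 1)
    (cD : ∀ n, 1 ≤ n → n ≤ N → (D n).card = 2 * (n + 1) * (N - n))
    (g : ℕ → ℂ) [DecidableRel (gr N S D h2 hS).Adj] :
    (gr N S D h2 hS).adjMatrix ℂ *ᵥ (vec N g : Vx N C → ℂ) = vec N (op N g) := by
  funext v
  have key : ∀ v, ((gr N S D h2 hS).adjMatrix ℂ *ᵥ (vec N g : Vx N C → ℂ)) v =
      ∑ w, (if adj N S D v w then (1 : ℂ) else 0) * vec N g w := by
    intro v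
    simp only [Matrix.mulVec, dotProduct, SimpleGraph.adjMatrix_apply]
    refine Finset.sum_congr rfl fun w _ => ?_
    congr 1
    by_cases h : adj N S D v w
    · rw [if_pos h, if_pos]; exact h
    · rw [if_neg h, if_neg]; exact h
  rw [key, Fintype.sum_sum_type, Fintype.sum_prod_type, Fintype.sum_bool]
  rcases v with x | ⟨i, c⟩
  · have e1 : (if adj N S D (Sum.inl x) (Sum.inl true : Vx N C) then (1 : ℂ) else 0) *
        vec N g (Sum.inl true : Vx N C) +
        (if adj N S D (Sum.inl x) (Sum.inl false : Vx N C) then (1 : ℂ) else 0) *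
        vec N g (Sum.inl false : Vx N C) = N * g 0 := by
      cases x <;> simp [adj, vec]
    rw [e1]
    have e2 : ∀ j : Fin N, (∑ d : C, (if adj N S D (Sum.inl x) (Sum.inr (j, d) : Vx N C)
        then (1 : ℂ) else 0) * vec N g (Sum.inr (j, d) : Vx N C)) =
        if (j : ℕ) = 0 then - (2 * (N : ℂ) ^ 2 * g 1) else 0 := by
      intro j
      have : ∀ d : C, (if adj N S D (Sum.inl x) (Sum.inr (j, d) : Vx N C)
        then (1 : ℂ) else 0) * vec N g (Sum.inr (j, d) : Vx N C) =
        if (j : ℕ) = 0 then - g 1 else 0 := by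
        intro d
        have h : adj N S D (Sum.inl x) (Sum.inr (j, d) : Vx N C) ↔ (j : ℕ) = 0 := Iff.rfl
        simp only [h]
        by_cases hj : (j : ℕ) = 0
        · simp [hj, vec]
        · simp [hj]
      rw [Finset.sum_congr rfl (fun d _ => this d), Finset.sum_const, Finset.card_univ, hC]
      by_cases hj : (j : ℕ) = 0
      · simp only [hj, if_true, nsmul_eq_mul]
        push_cast
        ring
      · simp [hj]
    rw [Finset.sum_congr rfl (fun j _ => e2 j)]
    rw [Fin.sum_univ_eq_sum_range (fun j => if j = 0 then - (2 * (N : ℂ) ^ 2 * g 1) else 0) N]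
    rw [Finset.sum_ite_eq' (Finset.range N) 0, if_pos (by simp; omega)]
    simp only [vec, op]
    push_cast
    ring
  · have e1 : (if adj N S D (Sum.inr (i, c)) (Sum.inl true : Vx N C) then (1 : ℂ) else 0) *
        vec N g (Sum.inl true : Vx N C) +
        (if adj N S D (Sum.inr (i, c)) (Sum.inl false : Vx N C) then (1 : ℂ) else 0) *
        vec N g (Sum.inl false : Vx N C) = if (i : ℕ) = 0 then 2 * (N * g 0) else 0 := by
      have h : ∀ y, adj N S D (Sum.inr (i, c)) (Sum.inl y : Vx N C) ↔ (i : ℕ) = 0 :=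
        fun _ => Iff.rfl
      simp only [h]
      by_cases hj : (i : ℕ) = 0
      · simp [hj, vec]; ring
      · simp [hj]
    rw [e1]
    set φ : ℕ → ℂ := fun j => (-1) ^ (j + 1) * g (j + 1) with hφ
    have e2 : ∀ j : Fin N, (∑ d : C, (if adj N S D (Sum.inr (i, c)) (Sum.inr (j, d) : Vx N C)
        then (1 : ℂ) else 0) * vec N g (Sum.inr (j, d) : Vx N C)) =
        (if (i : ℕ) = j then ((S (i + 1)).card : ℂ) * φ i else 0) +
        (if (i : ℕ) + 1 = j then ((D (i + 1)).card : ℂ) * φ (i + 1) else 0) +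
        (if (j : ℕ) + 1 = i then ((D (j + 1)).card : ℂ) * φ j else 0) := by
      intro j
      have h1 : ∀ d : C, vec N g (Sum.inr (j, d) : Vx N C) = φ j := fun d => rfl
      simp only [h1, adj_ite]
      rw [← Finset.sum_mul, Finset.sum_add_distrib, Finset.sum_add_distrib, add_mul, add_mul]
      congr 1
      · congr 1
        · by_cases h : (i : ℕ) = j
          · simp only [h, if_true]; rw [card_shift]
          · simp [h]
        · by_cases h : (i : ℕ) + 1 = j
          · simp only [h, if_true]; rw [card_shift]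
          · simp [h]
      · by_cases h : (j : ℕ) + 1 = i
        · simp only [h, if_true]; rw [card_shift]
        · simp [h]
    rw [Finset.sum_congr rfl (fun j _ => e2 j)]
    rw [Fin.sum_univ_eq_sum_range (fun j =>
        (if (i : ℕ) = j then ((S (i + 1)).card : ℂ) * φ i else 0) +
        (if (i : ℕ) + 1 = j then ((D (i + 1)).card : ℂ) * φ (i + 1) else 0) +
        (if j + 1 = (i : ℕ) then ((D (j + 1)).card : ℂ) * φ j else 0)) N]
    rw [Finset.sum_add_distrib, Finset.sum_add_distrib]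
    have hi : (i : ℕ) < N := i.2
    obtain ⟨i, hi'⟩ := i
    simp only at hi ⊢
    have s1 : (∑ j ∈ Finset.range N, if i = j then ((S (i + 1)).card : ℂ) * φ i else 0)
        = ((S (i + 1)).card : ℂ) * φ i := by
      rw [Finset.sum_ite_eq, if_pos (by simpa using hi)]
    rw [s1]
    have s2 : (∑ j ∈ Finset.range N, if i + 1 = j then ((D (i + 1)).card : ℂ) * φ (i + 1) else 0)
        = 2 * ((i : ℂ) + 1 + 1) * ((N : ℂ) - (i + 1)) * φ (i + 1) := by
      rw [Finset.sum_ite_eq]
      by_cases h : i + 1 < N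
      · rw [if_pos (by simpa using h), cD (i + 1) (by omega) (by omega)]
        rw [Nat.cast_mul, Nat.cast_mul, Nat.cast_sub (by omega)]
        push_cast
        ring
      · have : i + 1 = N := by omega
        rw [if_neg (by simpa using h), ← this]
        push_cast
        ring
    rw [s2, cS (i + 1) (by omega) (by omega)]
    have s3 : (if i = 0 then 2 * ((N : ℂ) * g 0) else 0) +
        (∑ j ∈ Finset.range N, if j + 1 = i then ((D (j + 1)).card : ℂ) * φ j else 0)
        = 2 * ((i : ℂ) + 1) * ((N : ℂ) + 1 - (i + 1)) * ((-1) ^ i * g i) := by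
      cases i with
      | zero => simp; ring
      | succ k =>
        rw [if_neg (by omega), zero_add]
        have : (∑ j ∈ Finset.range N, if j + 1 = k + 1 then ((D (j + 1)).card : ℂ) * φ j else 0)
            = ∑ j ∈ Finset.range N, if j = k then ((D (k + 1)).card : ℂ) * φ k else 0 := by
          refine Finset.sum_congr rfl fun j _ => ?_
          by_cases h : j = k
          · subst h; simp
          · simp [h]
        rw [this, Finset.sum_ite_eq', if_pos (by simp; omega), cD (k + 1) (by omega) (by omega)]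
        rw [Nat.cast_mul, Nat.cast_mul, Nat.cast_sub (by omega)]
        simp only [hφ]
        push_cast
        ring
    have s4 : ((4 * (i + 1) * (N - (i + 1)) + 1 : ℕ) : ℂ) =
        4 * ((i : ℂ) + 1) * ((N : ℂ) - (i + 1)) + 1 := by
      rw [Nat.cast_add, Nat.cast_mul, Nat.cast_mul, Nat.cast_sub (by omega)]
      push_cast
      ring
    rw [s4]
    have s5 : vec N (op N g) (Sum.inr (⟨i, hi'⟩, c) : Vx N C) =
        (-1) ^ (i + 1) * ((4 * ((i : ℂ) + 1) * ((N : ℂ) - (i + 1)) + 1) * g (i + 1)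
        - 2 * ((i : ℂ) + 1 + 1) * ((N : ℂ) - (i + 1)) * g (i + 1 + 1)
        - 2 * ((i : ℂ) + 1) * ((N : ℂ) + 1 - (i + 1)) * g i) := by
      simp only [vec, op]
      push_cast
      rfl
    rw [s5]
    have : ∀ a b c d : ℂ, a + (b + c + d) = (a + d) + b + c := by intros; ring
    rw [this, s3]
    simp only [hφ]
    ring

end Graph

end Pool.Agent.Helper211.PST
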