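import Pool.Agent.Helper211.PST

set_option autoImplicit false

open scoped BigOperators Matrix

namespace Pool.Agent.Helper211.PST

section Spectral

/-- eigenvalues -/
noncomputable def th (N d : ℕ) : ℂ := 2 * d * (d + 1) + 1 - 2 * N

lemma op_choose (N d n : ℕ) :
    op N (fun k => (k.choose d : ℂ)) n =
      th N d * (n.choose d : ℂ) - 2 * d * ((N : ℂ) + 1 - d) * (n.choose (d - 1) : ℂ) := by
  unfold op th
  rcases n with _ | n
  · rcases d with _ | _ | d
    · simp
    · simp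
    · have : Nat.choose 1 (d + 1 + 1) = 0 := Nat.choose_eq_zero_of_lt (by omega)
      simp [this]
  · rcases d with _ | e
    · simp; ring
    · have h1 : ((n + 2).choose (e + 1) : ℂ) = ((n + 1).choose e : ℂ) + ((n + 1).choose (e + 1) : ℂ) := by
        rw [Nat.choose_succ_succ]; push_cast; rfl
      have h2 : ((n + 1).choose (e + 1) : ℂ) = (n.choose e : ℂ) + (n.choose (e + 1) : ℂ) := by
        rw [Nat.choose_succ_succ]; push_cast; rfl
      have h3 : ((n : ℂ) + 1) * (n.choose e : ℂ) = ((n + 1).choose (e + 1) : ℂ) * (e + 1) := by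
        have := Nat.add_one_mul_choose_eq n e
        exact_mod_cast this
      have h4 : ((n : ℂ) + 2) * ((n + 1).choose e : ℂ) = ((n + 2).choose (e + 1) : ℂ) * (e + 1) := by
        have := Nat.add_one_mul_choose_eq (n + 1) e
        exact_mod_cast this
      have e1 : n + 1 + 1 = n + 2 := rfl
      simp only [e1, Nat.add_sub_cancel]
      have h5 : (n.choose (e + 1) : ℂ) = ((n + 1).choose (e + 1) : ℂ) - (n.choose e : ℂ) := by
        rw [h2]; ring
      rw [h5]
      rw [h1] at h4 ⊢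
      push_cast
      linear_combination (-2 * ((N : ℂ) - n - e - 2)) * h4 + (2 * ((N : ℂ) - n)) * h3

lemma vec_sub_smul {C : Type} (N : ℕ) (g g' : ℕ → ℂ) (a b : ℂ) :
    (vec N (fun n => a * g n - b * g' n) : Vx N C → ℂ) = a • vec N g - b • vec N g' := by
  funext v
  rcases v with x | p
  · simp [vec]; ring
  · simp [vec]; ring

variable {V : Type} [Fintype V] [DecidableEq V]

/-- span of the eigenvectors with index below `d` -/
def Esp (A : Matrix V V ℂ) (θ : ℕ → ℂ) (d : ℕ) : Submodule ℂ (V → ℂ) :=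
  Submodule.span ℂ {w | ∃ x, x < d ∧ A *ᵥ w = θ x • w}

omit [DecidableEq V] in
lemma Esp_mono (A : Matrix V V ℂ) (θ : ℕ → ℂ) {d e : ℕ} (h : d ≤ e) : Esp A θ d ≤ Esp A θ e := by
  apply Submodule.span_mono
  rintro w ⟨x, hx, hw⟩
  exact ⟨x, lt_of_lt_of_le hx h, hw⟩

omit [DecidableEq V] in
lemma Esp_surj (A : Matrix V V ℂ) (θ : ℕ → ℂ) (d : ℕ) (hθ : ∀ x, x < d → θ x ≠ θ d)
    (v : V → ℂ) (hv : v ∈ Esp A θ d) : ∃ w ∈ Esp A θ d, A *ᵥ w - θ d • w = v := by
  unfold Esp at hv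
  induction hv using Submodule.span_induction with
  | mem v hv =>
    obtain ⟨x, hx, hv⟩ := hv
    refine ⟨(θ x - θ d)⁻¹ • v, Submodule.smul_mem _ _ (Submodule.subset_span ⟨x, hx, hv⟩), ?_⟩
    have h0 : θ x - θ d ≠ 0 := sub_ne_zero.mpr (hθ x hx)
    rw [Matrix.mulVec_smul, hv, smul_comm (θ d), ← smul_sub, ← sub_smul, smul_smul,
      inv_mul_cancel₀ h0, one_smul]
  | zero => exact ⟨0, Submodule.zero_mem _, by simp⟩
  | add a b _ _ ha hb =>
    obtain ⟨w1, m1, h1⟩ := ha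
    obtain ⟨w2, m2, h2⟩ := hb
    refine ⟨w1 + w2, Submodule.add_mem _ m1 m2, ?_⟩
    rw [Matrix.mulVec_add, smul_add, ← h1, ← h2]; abel
  | smul c a _ ha =>
    obtain ⟨w1, m1, h1⟩ := ha
    refine ⟨c • w1, Submodule.smul_mem _ _ m1, ?_⟩
    rw [Matrix.mulVec_smul, smul_comm, ← smul_sub, h1]

omit [DecidableEq V] in
lemma mem_Esp (A : Matrix V V ℂ) (θ β : ℕ → ℂ) (F : ℕ → V → ℂ)
    (hθ : ∀ d x, x < d → θ x ≠ θ d) (h0 : A *ᵥ F 0 = θ 0 • F 0)
    (hF : ∀ d, A *ᵥ F (d + 1) = θ (d + 1) • F (d + 1) - β d • F d) (d : ℕ) :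
    F d ∈ Esp A θ (d + 1) := by
  induction d with
  | zero => exact Submodule.subset_span ⟨0, by omega, h0⟩
  | succ d ih =>
    obtain ⟨w, hw, hw2⟩ := Esp_surj A θ (d + 1) (hθ (d + 1)) (-(β d • F d))
      (Submodule.neg_mem _ (Submodule.smul_mem _ _ ih))
    have h1 : F (d + 1) - w ∈ Esp A θ (d + 1 + 1) := by
      apply Submodule.subset_span
      refine ⟨d + 1, by omega, ?_⟩
      rw [Matrix.mulVec_sub, hF, smul_sub]
      have : A *ᵥ w = θ (d + 1) • w + (-(β d • F d)) := by rw [← hw2]; abel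
      rw [this]; abel
    have h2 : w ∈ Esp A θ (d + 1 + 1) := Esp_mono A θ (by omega) hw
    have := Submodule.add_mem _ h1 h2
    simpa using this

/-- the evolution at a fixed time acts on `w` as the scalar `s` -/
def Evo (A : Matrix V V ℂ) (z s : ℂ) (w : V → ℂ) : Prop :=
  HasSum (fun m : ℕ => (z ^ m / (m.factorial : ℂ)) • ((A ^ m) *ᵥ w)) (s • w)

lemma Evo_eig (A : Matrix V V ℂ) (z θ : ℂ) (w : V → ℂ) (h : A *ᵥ w = θ • w) :
    Evo A z (Complex.exp (z * θ)) w := by
  have hp : ∀ m : ℕ, (A ^ m) *ᵥ w = θ ^ m • w := by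
    intro m
    induction m with
    | zero => simp
    | succ m ih =>
      rw [pow_succ, ← Matrix.mulVec_mulVec, h, Matrix.mulVec_smul, ih, smul_smul, pow_succ, mul_comm]
  unfold Evo
  have h1 : HasSum (fun m : ℕ => (z * θ) ^ m / (m.factorial : ℂ)) (Complex.exp (z * θ)) := by
    have := NormedSpace.expSeries_div_hasSum_exp (z * θ)
    rwa [← Complex.exp_eq_exp_ℂ] at this
  have h2 := h1.smul_const w
  refine h2.congr_fun ?_ |> fun h => h
  intro m
  rw [hp, smul_smul, mul_pow]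
  congr 1
  ring

lemma Evo_add (A : Matrix V V ℂ) (z s : ℂ) (w w' : V → ℂ) (h : Evo A z s w) (h' : Evo A z s w') :
    Evo A z s (w + w') := by
  unfold Evo at *
  have := h.add h'
  simpa only [Matrix.mulVec_add, smul_add] using this

lemma Evo_smul (A : Matrix V V ℂ) (z s c : ℂ) (w : V → ℂ) (h : Evo A z s w) :
    Evo A z s (c • w) := by
  unfold Evo at *
  have := h.const_smul c
  simp only [Matrix.mulVec_smul]
  simpa only [smul_comm c] using this

lemma Evo_zero (A : Matrix V V ℂ) (z s : ℂ) : Evo A z s 0 := by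
  unfold Evo
  simpa using (hasSum_zero (α := V → ℂ) (β := ℕ))

lemma Evo_Esp (A : Matrix V V ℂ) (z s : ℂ) (θ : ℕ → ℂ) (hs : ∀ x, Complex.exp (z * θ x) = s)
    (d : ℕ) (w : V → ℂ) (hw : w ∈ Esp A θ d) : Evo A z s w := by
  unfold Esp at hw
  induction hw using Submodule.span_induction with
  | mem v hv =>
    obtain ⟨x, _, hv⟩ := hv
    rw [← hs x]
    exact Evo_eig A z (θ x) v hv
  | zero => exact Evo_zero A z s
  | add a b _ _ ha hb => exact Evo_add A z s a b ha hb
  | smul c a _ ha => exact Evo_smul A z s c a ha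

/-- the conclusion: an entry of the evolution has modulus one -/
lemma entry (A : Matrix V V ℂ) (z : ℂ) (u v : V)
    (h1 : Evo A z (-Complex.I) (Pi.single u 1 + Pi.single v 1))
    (h2 : Evo A z Complex.I (Pi.single u 1 - Pi.single v 1)) :
    ∑' m : ℕ, (z ^ m / (m.factorial : ℂ)) * (A ^ m) u v = -Complex.I := by
  unfold Evo at h1 h2
  have h3 := (((Pi.hasSum.mp h1) u).sub ((Pi.hasSum.mp h2) u)).mul_left (2 : ℂ)⁻¹
  have h6 : (fun m : ℕ => (2 : ℂ)⁻¹ * (((z ^ m / (m.factorial : ℂ)) •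
      ((A ^ m) *ᵥ (Pi.single u 1 + Pi.single v 1))) u -
      ((z ^ m / (m.factorial : ℂ)) • ((A ^ m) *ᵥ (Pi.single u 1 - Pi.single v 1))) u)) =
      fun m : ℕ => (z ^ m / (m.factorial : ℂ)) * (A ^ m) u v := by
    funext m
    have e1 : ((A ^ m) *ᵥ (Pi.single v 1)) u = (A ^ m) u v := by
      rw [Matrix.mulVec_single_one]
      rfl
    rw [Matrix.mulVec_add, Matrix.mulVec_sub]
    simp only [Pi.smul_apply, Pi.add_apply, Pi.sub_apply, e1, smul_eq_mul]
    ring
  rw [h6] at h3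
  rw [h3.tsum_eq]
  simp only [Pi.smul_apply, Pi.add_apply, Pi.sub_apply, smul_eq_mul, Pi.single_eq_same]
  ring

end Spectral

end Pool.Agent.Helper211.PST
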