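import Pool.Agent.Helper211.PST2

set_option autoImplicit false

open scoped BigOperators Matrix

namespace Pool.Agent.Helper211.PST

section Final

variable {C : Type} [AddCommGroup C] [Fintype C] [DecidableEq C]

omit [Fintype C] [DecidableEq C] in
lemma lev_adj (N : ℕ) (S D : ℕ → Finset C) (u v : Vx N C) (h : adj N S D u v) :
    lev N v ≤ lev N u + 1 := by
  rcases u with x | p <;> rcases v with y | q
  · simp [lev]
  · have : (q.1 : ℕ) = 0 := h
    simp [lev, this]
  · simp [lev]
  · have : ((p.1 : ℕ) = q.1 ∧ p.2 + q.2 ∈ S (p.1 + 1)) ∨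
      ((p.1 : ℕ) + 1 = q.1 ∧ p.2 + q.2 ∈ D (p.1 + 1)) ∨
      ((q.1 : ℕ) + 1 = p.1 ∧ p.2 + q.2 ∈ D (q.1 + 1)) := h
    simp only [lev]
    omega

/-- graph statement on the natural vertex set -/
lemma main_graph (N : ℕ) (hN : 1 ≤ N) (hNe : Even N) (S D : ℕ → Finset C)
    (h2 : ∀ c : C, c + c = 0) (hS : ∀ n, (0 : C) ∉ S n)
    (hC : Fintype.card C = 2 * N ^ 2)
    (cS : ∀ n, 1 ≤ n → n ≤ N → (S n).card = 4 * n * (N - n) + 1)
    (cD : ∀ n, 1 ≤ n → n ≤ N → (D n).card = 2 * (n + 1) * (N - n))
    [DecidableRel (gr N S D h2 hS).Adj] :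
    (gr N S D h2 hS).Connected ∧
    ∑' m : ℕ, ((-((Real.pi / 2 : ℝ) : ℂ) * Complex.I) ^ m / (m.factorial : ℂ)) *
      (((gr N S D h2 hS).adjMatrix ℂ) ^ m) (Sum.inl true) (Sum.inl false) = -Complex.I := by
  constructor
  · rw [SimpleGraph.connected_iff_exists_forall_reachable]
    refine ⟨Sum.inl true, ?_⟩
    have key : ∀ k : ℕ, ∀ (hk : k < N) (c : C),
        (gr N S D h2 hS).Reachable (Sum.inl true) (Sum.inr (⟨k, hk⟩, c)) := by
      intro k
      induction k with
      | zero =>
        intro hk c
        apply SimpleGraph.Adj.reachable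
        show ((⟨0, hk⟩ : Fin N) : ℕ) = 0
        rfl
      | succ k ih =>
        intro hk c
        have hpos : 0 < (D (k + 1)).card := by
          rw [cD (k + 1) (by omega) (by omega)]
          have : 0 < N - (k + 1) := by omega
          positivity
        obtain ⟨d, hd⟩ := Finset.card_pos.mp hpos
        refine (ih (by omega) (c + d)).trans (SimpleGraph.Adj.reachable ?_)
        refine Or.inr (Or.inl ⟨rfl, ?_⟩)
        show c + d + c ∈ D (k + 1)
        have : c + d + c = d := by
          rw [add_comm c d, add_assoc, h2, add_zero]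
        rw [this]; exact hd
    intro w
    rcases w with y | ⟨⟨k, hk⟩, c⟩
    · cases y
      · apply SimpleGraph.Adj.reachable
        show true ≠ false
        simp
      · exact SimpleGraph.Reachable.refl _
    · exact key k hk c
  · set A := (gr N S D h2 hS).adjMatrix ℂ with hA
    have hF : ∀ g : ℕ → ℂ, A *ᵥ (vec N g : Vx N C → ℂ) = vec N (op N g) :=
      fun g => mulVec_vec N S D h2 hS hN hC cS cD g
    set F : ℕ → (Vx N C → ℂ) := fun d => vec N (fun n => (n.choose d : ℂ)) with hFd
    have hop : ∀ d : ℕ, op N (fun k => (k.choose d : ℂ)) = fun n =>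
      th N d * (n.choose d : ℂ) - 2 * d * ((N : ℂ) + 1 - d) * (n.choose (d - 1) : ℂ) :=
      fun d => funext fun n => op_choose N d n
    have hF0 : A *ᵥ F 0 = th N 0 • F 0 := by
      rw [hFd]
      simp only [hF, hop]
      rw [vec_sub_smul]
      simp
    have hF1 : ∀ d, A *ᵥ F (d + 1) = th N (d + 1) • F (d + 1) -
        (2 * ((d + 1 : ℕ) : ℂ) * ((N : ℂ) + 1 - ((d + 1 : ℕ) : ℂ))) • F d := by
      intro d
      rw [hFd]
      simp only [hF, hop]
      rw [vec_sub_smul]
      simp
    have hθ : ∀ d x : ℕ, x < d → th N x ≠ th N d := by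
      intro d x hx h
      unfold th at h
      have h1 : ((x * (x + 1) : ℕ) : ℂ) = ((d * (d + 1) : ℕ) : ℂ) := by
        push_cast
        linear_combination h / 2
      have h2 : x * (x + 1) = d * (d + 1) := by exact_mod_cast h1
      have h3 : x * (x + 1) < d * (d + 1) := by
        have := Nat.mul_lt_mul'' hx (by omega : x + 1 < d + 1)
        exact this
      omega
    have hmem := mem_Esp A (th N) (fun d => (2 * ((d + 1 : ℕ) : ℂ) * ((N : ℂ) + 1 - ((d + 1 : ℕ) : ℂ))))
      F hθ hF0 hF1
    set z : ℂ := -((Real.pi / 2 : ℝ) : ℂ) * Complex.I with hz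
    obtain ⟨M, hM⟩ := hNe
    have hs : ∀ x : ℕ, Complex.exp (z * th N x) = -Complex.I := by
      intro x
      obtain ⟨y, hy⟩ := Nat.even_mul_succ_self x
      have h1 : z * th N x = -((Real.pi / 2 : ℝ) : ℂ) * Complex.I +
          ((M : ℤ) - (y : ℤ) : ℤ) * (2 * Real.pi * Complex.I) := by
        rw [hz]
        unfold th
        have h3 : (x : ℂ) * (x + 1) = y + y := by exact_mod_cast hy
        have h4 : (N : ℂ) = M + M := by exact_mod_cast hM
        push_cast
        rw [h4]
        linear_combination (-(Real.pi : ℂ) * Complex.I) * h3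
      rw [h1, Complex.exp_add, Complex.exp_int_mul_two_pi_mul_I, mul_one]
      rw [show -((Real.pi / 2 : ℝ) : ℂ) * Complex.I = ((-(Real.pi / 2) : ℝ) : ℂ) * Complex.I by
        push_cast; ring, Complex.exp_mul_I]
      rw [← Complex.ofReal_cos, ← Complex.ofReal_sin, Real.cos_neg, Real.sin_neg,
        Real.cos_pi_div_two, Real.sin_pi_div_two]
      simp
    apply entry
    · -- symmetric part
      have hw : (Pi.single (Sum.inl true) 1 + Pi.single (Sum.inl false) 1 : Vx N C → ℂ) =
          ∑ d ∈ Finset.range (N + 1), (((N : ℂ)⁻¹) * (-1) ^ d) • F d := by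
        funext v
        rw [Finset.sum_apply]
        simp only [Pi.smul_apply, smul_eq_mul, hFd]
        have hNz : (N : ℂ) ≠ 0 := by
          have : N ≠ 0 := by omega
          exact_mod_cast this
        rcases v with x | ⟨i, c⟩
        · have e1 : ∀ d ∈ Finset.range (N + 1), ((N : ℂ)⁻¹) * (-1) ^ d *
              vec N (fun n => (n.choose d : ℂ)) (Sum.inl x : Vx N C) = if d = 0 then 1 else 0 := by
            intro d _
            rcases d with _ | d
            · simp [vec, hNz]
            · simp [vec]
          rw [Finset.sum_congr rfl e1, Finset.sum_ite_eq' (Finset.range (N + 1)) 0,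
            if_pos (by simp)]
          cases x <;> simp [Pi.single_apply]
        · have e1 : ∀ d ∈ Finset.range (N + 1), ((N : ℂ)⁻¹) * (-1) ^ d *
              vec N (fun n => (n.choose d : ℂ)) (Sum.inr (i, c) : Vx N C) =
              ((N : ℂ)⁻¹) * (-1) ^ ((i : ℕ) + 1) * ((-1) ^ d * (((i : ℕ) + 1).choose d : ℂ)) := by
            intro d _
            simp only [vec]
            ring
          rw [Finset.sum_congr rfl e1, ← Finset.mul_sum]
          have e2 : (∑ d ∈ Finset.range (N + 1), (-1 : ℂ) ^ d * (((i : ℕ) + 1).choose d : ℂ)) = 0 := by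
            have e3 : (∑ d ∈ Finset.range (N + 1), (-1 : ℂ) ^ d * (((i : ℕ) + 1).choose d : ℂ)) =
                ∑ d ∈ Finset.range ((i : ℕ) + 1 + 1), (-1 : ℂ) ^ d * (((i : ℕ) + 1).choose d : ℂ) := by
              symm
              apply Finset.sum_subset
              · intro d hd
                have := i.2
                simp only [Finset.mem_range] at hd ⊢
                omega
              · intro d _ hd
                simp only [Finset.mem_range, not_lt] at hd
                rw [Nat.choose_eq_zero_of_lt (by omega)]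
                simp
            rw [e3]
            have := Int.alternating_sum_range_choose_of_ne (n := (i : ℕ) + 1) (by omega)
            have h4 := congrArg (fun t : ℤ => (t : ℂ)) this
            push_cast at h4
            exact h4
          rw [e2]
          simp [Pi.single_apply]
      rw [hw]
      have : ∀ s : Finset ℕ, Evo A z (-Complex.I) (∑ d ∈ s, (((N : ℂ)⁻¹) * (-1) ^ d) • F d) := by
        intro s
        induction s using Finset.induction_on with
        | empty => simpa using Evo_zero A z (-Complex.I)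
        | insert d s hd ih =>
          rw [Finset.sum_insert hd]
          apply Evo_add
          · apply Evo_smul
            exact Evo_Esp A z (-Complex.I) (th N) hs (d + 1) (F d) (hmem d)
          · exact ih
      exact this _
    · -- antisymmetric part
      have hz1 : A *ᵥ (Pi.single (Sum.inl true) 1 - Pi.single (Sum.inl false) 1 : Vx N C → ℂ) =
          (-1 : ℂ) • (Pi.single (Sum.inl true) 1 - Pi.single (Sum.inl false) 1) := by
        rw [Matrix.mulVec_sub, Matrix.mulVec_single_one, Matrix.mulVec_single_one]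
        funext v
        have hAv : ∀ w, A v w = if adj N S D v w then 1 else 0 := by
          intro w
          rw [hA, SimpleGraph.adjMatrix_apply]
          by_cases h : adj N S D v w
          · rw [if_pos h, if_pos]; exact h
          · rw [if_neg h, if_neg]; exact h
        simp only [Pi.sub_apply, Matrix.col_apply, Pi.smul_apply, hAv]
        rcases v with x | p
        · cases x <;> simp [adj, Pi.single_apply]
        · have h : ∀ y, adj N S D (Sum.inr p) (Sum.inl y : Vx N C) ↔ (p.1 : ℕ) = 0 :=
            fun _ => Iff.rfl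
          simp only [h]
          simp [Pi.single_apply]
      have := Evo_eig A z (-1) _ hz1
      have he : Complex.exp (z * (-1)) = Complex.I := by
        rw [hz, show -((Real.pi / 2 : ℝ) : ℂ) * Complex.I * (-1) =
          ((Real.pi / 2 : ℝ) : ℂ) * Complex.I by ring, Complex.exp_mul_I,
          ← Complex.ofReal_cos, ← Complex.ofReal_sin,
          Real.cos_pi_div_two, Real.sin_pi_div_two]
        simp
      rw [he] at this
      exact this

lemma submatrix_pow' {V W : Type} [Fintype V] [DecidableEq V] [Fintype W] [DecidableEq W]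
    (A : Matrix V V ℂ) (e : W ≃ V) (m : ℕ) : (A.submatrix e e) ^ m = (A ^ m).submatrix e e := by
  induction m with
  | zero => simp
  | succ m ih => rw [pow_succ, pow_succ, ih, Matrix.submatrix_mul_equiv]

theorem final : ∃ C k : ℕ, ∀ N : ℕ, ∃ (n : ℕ) (G : SimpleGraph (Fin n)) (_ : DecidableRel G.Adj),
      N < n ∧ G.Connected ∧ n ≤ C * G.diam ^ k ∧
      ∃ (u v : Fin n) (t : ℝ), u ≠ v ∧
        ‖∑' m : ℕ, ((-(t : ℂ) * Complex.I) ^ m / (m.factorial : ℂ)) *
            ((G.adjMatrix ℂ) ^ m) u v‖ = 1 := by
  classical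
  refine ⟨4, 3, fun N₀ => ?_⟩
  -- parameters
  set a := N₀ + 1 with ha
  set N := 2 ^ a with hNdef
  have hN₀ : N₀ < N := by
    have := Nat.lt_two_pow_self (n := a)
    omega
  have hN2 : 2 ≤ N := by
    rw [hNdef, ha, pow_succ]
    have := Nat.one_le_two_pow (n := N₀)
    omega
  have hNe : Even N := by
    rw [hNdef, ha, pow_succ]
    exact ⟨2 ^ N₀, by ring⟩
  let C := Fin (2 * a + 1) → ZMod 2
  have hC : Fintype.card C = 2 * N ^ 2 := by
    show Fintype.card (Fin (2 * a + 1) → ZMod 2) = _
    rw [Fintype.card_fun, Fintype.card_fin, ZMod.card, hNdef]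
    ring
  have h2 : ∀ c : C, c + c = 0 := by
    intro c
    funext i
    exact CharTwo.add_self_eq_zero (c i)
  have exS : ∀ n : ℕ, ∃ s : Finset C, (0 : C) ∉ s ∧ (n ≤ N → s.card = 4 * n * (N - n) + 1) := by
    intro n
    by_cases hn : n ≤ N
    · have hle : 4 * n * (N - n) + 1 ≤ (Finset.univ.erase (0 : C)).card := by
        rw [Finset.card_erase_of_mem (Finset.mem_univ _), Finset.card_univ, hC]
        obtain ⟨k, hk⟩ := Nat.exists_eq_add_of_le hn
        rw [hk, Nat.add_sub_cancel_left]
        have h3 : 4 * n * k ≤ (n + k) ^ 2 := by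
          zify
          nlinarith [sq_nonneg ((n : ℤ) - k)]
        have h4 : 4 ≤ (n + k) ^ 2 := by
          rw [← hk]
          nlinarith
        omega
      obtain ⟨s, hs, hc⟩ := Finset.exists_subset_card_eq hle
      refine ⟨s, fun h => ?_, fun _ => hc⟩
      exact (Finset.mem_erase.mp (hs h)).1 rfl
    · exact ⟨∅, by simp, fun h => absurd h hn⟩
  have exD : ∀ n : ℕ, ∃ s : Finset C, (1 ≤ n → n ≤ N → s.card = 2 * (n + 1) * (N - n)) := by
    intro n
    by_cases hn : 1 ≤ n ∧ n ≤ N
    · have hle : 2 * (n + 1) * (N - n) ≤ (Finset.univ : Finset C).card := by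
        rw [Finset.card_univ, hC]
        obtain ⟨k, hk⟩ := Nat.exists_eq_add_of_le hn.2
        rw [hk, Nat.add_sub_cancel_left]
        have h1 := hn.1
        have h5 : k ≤ k ^ 2 := by nlinarith [Nat.zero_le k, Nat.le_self_pow (n := 2) (by norm_num) k]
        nlinarith [Nat.zero_le (n * k), Nat.zero_le (n ^ 2)]
      obtain ⟨s, hs, hc⟩ := Finset.exists_subset_card_eq hle
      exact ⟨s, fun _ _ => hc⟩
    · exact ⟨∅, fun h h' => absurd ⟨h, h'⟩ hn⟩
  choose S hS0 hScard using exS
  choose D hDcard using exD
  obtain ⟨hconn, hsum⟩ := main_graph N (by omega) hNe S D h2 hS0 hC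
    (fun n _ h => hScard n h) hDcard
  set G₀ := gr N S D h2 hS0 with hG₀
  have hcard : Fintype.card (Vx N C) = 2 + 2 * N ^ 3 := by
    show Fintype.card (Bool ⊕ (Fin N × C)) = _
    rw [Fintype.card_sum, Fintype.card_prod, Fintype.card_bool, Fintype.card_fin, hC]
    ring
  let e : Fin (Fintype.card (Vx N C)) ≃ Vx N C := (Fintype.equivFin (Vx N C)).symm
  let G : SimpleGraph (Fin (Fintype.card (Vx N C))) := G₀.comap e
  have iso : G ≃g G₀ := { toEquiv := e, map_rel_iff' := Iff.rfl }
  have hGconn : G.Connected := iso.connected_iff.mpr hconn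
  refine ⟨Fintype.card (Vx N C), G, inferInstance, ?_, hGconn, ?_, ?_⟩
  · rw [hcard]
    have : N ≤ N ^ 3 := Nat.le_self_pow (by norm_num) N
    omega
  · -- diameter
    have hdiam : N ≤ G.diam := by
      have hN1 : N - 1 < N := by omega
      let a0 : Vx N C := Sum.inl true
      let b0 : Vx N C := Sum.inr (⟨N - 1, hN1⟩, 0)
      have hwalk : ∀ (x y : Fin (Fintype.card (Vx N C))) (p : G.Walk x y),
          lev N (e y) ≤ lev N (e x) + p.length := by
        intro x y p
        induction p with
        | nil => simp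
        | cons h p ih =>
          rename_i u v w
          have h1 : lev N (e v) ≤ lev N (e u) + 1 := lev_adj N S D _ _ h
          rw [SimpleGraph.Walk.length_cons]
          omega
      have : Nonempty (Fin (Fintype.card (Vx N C))) := ⟨e.symm a0⟩
      obtain ⟨p, hp⟩ := hGconn.exists_walk_length_eq_dist (e.symm a0) (e.symm b0)
      have h1 := hwalk _ _ p
      have h2 : G.dist (e.symm a0) (e.symm b0) ≤ G.diam :=
        SimpleGraph.dist_le_diam (SimpleGraph.connected_iff_ediam_ne_top.mp hGconn)
      rw [Equiv.apply_symm_apply, Equiv.apply_symm_apply] at h1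
      have h3 : lev N b0 = N := by
        show N - 1 + 1 = N
        omega
      have h4 : lev N a0 = 0 := rfl
      omega
    have h1 : N ^ 3 ≤ G.diam ^ 3 := Nat.pow_le_pow_left hdiam 3
    have h2 : 2 ^ 3 ≤ N ^ 3 := Nat.pow_le_pow_left hN2 3
    calc Fintype.card (Vx N C) = 2 + 2 * N ^ 3 := hcard
      _ ≤ 4 * N ^ 3 := by omega
      _ ≤ 4 * G.diam ^ 3 := Nat.mul_le_mul_left 4 h1
  · refine ⟨e.symm (Sum.inl true), e.symm (Sum.inl false), Real.pi / 2, ?_, ?_⟩
    · intro h
      have := e.symm.injective h
      simp at this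
    · have hAd : G.adjMatrix ℂ = (G₀.adjMatrix ℂ).submatrix e e := by
        ext x y
        rfl
      have h1 : ∀ m : ℕ, ((G.adjMatrix ℂ) ^ m) (e.symm (Sum.inl true)) (e.symm (Sum.inl false)) =
          ((G₀.adjMatrix ℂ) ^ m) (Sum.inl true) (Sum.inl false) := by
        intro m
        rw [hAd, submatrix_pow']
        simp
      have h2 : (∑' m : ℕ, ((-((Real.pi / 2 : ℝ) : ℂ) * Complex.I) ^ m / (m.factorial : ℂ)) *
            ((G.adjMatrix ℂ) ^ m) (e.symm (Sum.inl true)) (e.symm (Sum.inl false))) =
            -Complex.I := by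
        rw [← hsum]
        exact tsum_congr fun m => by rw [h1]
      rw [h2]
      simp

end Final

end Pool.Agent.Helper211.PST
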