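import Pool.Agent.Helper211.PST2

set_option autoImplicit false

open scoped BigOperators Matrix

namespace Pool.Agent.Helper211.PSTEdge

open Pool.Agent.Helper211.PST

lemma exp_mulVec_eig {V : Type} [Fintype V] [DecidableEq V] (A : Matrix V V ℂ) (θ : ℂ)
    (w : V → ℂ) (h : A *ᵥ w = θ • w) :
    (NormedSpace.exp A) *ᵥ w = Complex.exp θ • w := by
  have h1 : HasSum (fun n : ℕ => ((n.factorial : ℂ)⁻¹) • A ^ n) (NormedSpace.exp A) := by
    open scoped Matrix.Norms.Operator in exact NormedSpace.exp_series_hasSum_exp' A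
  have h2 : HasSum (fun n : ℕ => (((n.factorial : ℂ)⁻¹) • A ^ n) *ᵥ w) (NormedSpace.exp A *ᵥ w) :=
    h1.map (Matrix.mulVec.addMonoidHomLeft w) (by
      show Continuous fun M : Matrix V V ℂ => M *ᵥ w
      exact Continuous.matrix_mulVec continuous_id continuous_const)
  have hp : ∀ m : ℕ, (A ^ m) *ᵥ w = θ ^ m • w := by
    intro m
    induction m with
    | zero => simp
    | succ m ih =>
      rw [pow_succ, ← Matrix.mulVec_mulVec, h, Matrix.mulVec_smul, ih, smul_smul, pow_succ, mul_comm]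
  have h3 : HasSum (fun m : ℕ => θ ^ m / (m.factorial : ℂ)) (Complex.exp θ) := by
    have := NormedSpace.expSeries_div_hasSum_exp θ
    rwa [← Complex.exp_eq_exp_ℂ] at this
  have h4 := h3.smul_const w
  refine h2.unique ?_
  convert h4 using 1
  funext m
  rw [Matrix.smul_mulVec, hp, smul_smul]
  congr 1
  rw [mul_comm]
  rfl

variable (M : ℕ)

/-- even cells -/
abbrev Ev := Σ j : Fin M, Fin (16 * (M - j))
/-- odd cells -/
abbrev Od := Σ j : Fin M, Fin ((j : ℕ) + 1)

/-- adjacency: consecutive cells are completely joined -/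
def adjX : Ev M ⊕ Od M → Ev M ⊕ Od M → Prop
  | Sum.inl p, Sum.inr q => (p.1 : ℕ) = q.1 ∨ (p.1 : ℕ) = q.1 + 1
  | Sum.inr q, Sum.inl p => (p.1 : ℕ) = q.1 ∨ (p.1 : ℕ) = q.1 + 1
  | _, _ => False

/-- the chain of joins -/
def X : SimpleGraph (Ev M ⊕ Od M) where
  Adj := adjX M
  symm := ⟨by
    intro u v h
    rcases u with p | p <;> rcases v with q | q <;> exact h⟩
  loopless := ⟨by
    intro u h
    rcases u with p | p <;> exact h⟩

/-- level -/
def levX : Ev M ⊕ Od M → ℕ
  | Sum.inl p => 2 * (p.1 : ℕ)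
  | Sum.inr p => 2 * (p.1 : ℕ) + 1

/-- vector constant on cells -/
noncomputable def vecX (a b : ℕ → ℂ) : Ev M ⊕ Od M → ℂ
  | Sum.inl p => a p.1
  | Sum.inr p => b p.1

/-- the action on even cells -/
noncomputable def up (b : ℕ → ℂ) : ℕ → ℂ := fun j => ((j : ℂ) + 1) * b j + j * b (j - 1)
/-- the action on odd cells -/
noncomputable def dn (a : ℕ → ℂ) : ℕ → ℂ := fun i =>
  16 * ((M : ℂ) - i) * a i + 16 * ((M : ℂ) - i - 1) * a (i + 1)

lemma mulVec_vecX (a b : ℕ → ℂ) [DecidableRel (X M).Adj] :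
    (X M).adjMatrix ℂ *ᵥ vecX M a b = vecX M (up b) (dn M a) := by
  classical
  funext v
  have key : ∀ v, ((X M).adjMatrix ℂ *ᵥ vecX M a b) v =
      ∑ w, (if adjX M v w then (1 : ℂ) else 0) * vecX M a b w := by
    intro v
    simp only [Matrix.mulVec, dotProduct, SimpleGraph.adjMatrix_apply]
    refine Finset.sum_congr rfl fun w _ => ?_
    congr 1
    by_cases h : adjX M v w
    · rw [if_pos h, if_pos]; exact h
    · rw [if_neg h, if_neg]; exact h
  rw [key, Fintype.sum_sum_type]
  rcases v with ⟨j, x⟩ | ⟨i, y⟩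
  · have e1 : (∑ w : Ev M, (if adjX M (Sum.inl ⟨j, x⟩) (Sum.inl w) then (1 : ℂ) else 0) *
        vecX M a b (Sum.inl w)) = 0 := by
      apply Finset.sum_eq_zero
      intro w _
      have h : ¬ adjX M (Sum.inl ⟨j, x⟩) (Sum.inl w) := fun h => h
      rw [if_neg h, zero_mul]
    rw [e1, zero_add, Fintype.sum_sigma]
    have e2 : ∀ i : Fin M, (∑ y : Fin ((i : ℕ) + 1),
        (if adjX M (Sum.inl ⟨j, x⟩) (Sum.inr ⟨i, y⟩) then (1 : ℂ) else 0) *
        vecX M a b (Sum.inr ⟨i, y⟩)) = (if (j : ℕ) = i then ((i : ℂ) + 1) * b i else 0) +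
          (if (j : ℕ) = (i : ℕ) + 1 then ((i : ℂ) + 1) * b i else 0) := by
      intro i
      have : ∀ y : Fin ((i : ℕ) + 1),
        (if adjX M (Sum.inl ⟨j, x⟩) (Sum.inr ⟨i, y⟩) then (1 : ℂ) else 0) *
        vecX M a b (Sum.inr ⟨i, y⟩) =
        (if (j : ℕ) = i then b i else 0) + (if (j : ℕ) = (i : ℕ) + 1 then b i else 0) := by
        intro y
        have h : adjX M (Sum.inl ⟨j, x⟩) (Sum.inr ⟨i, y⟩) ↔
          ((j : ℕ) = i ∨ (j : ℕ) = (i : ℕ) + 1) := Iff.rfl
        simp only [h, vecX]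
        by_cases h1 : (j : ℕ) = i
        · have h2 : ¬ (j : ℕ) = (i : ℕ) + 1 := by omega
          simp [h1]
        · by_cases h2 : (j : ℕ) = (i : ℕ) + 1
          · simp [h2]
          · simp [h1, h2]
      rw [Finset.sum_congr rfl (fun y _ => this y), Finset.sum_const, Finset.card_univ,
        Fintype.card_fin, nsmul_eq_mul]
      push_cast
      rw [mul_add, mul_ite, mul_ite, mul_zero]
    rw [Finset.sum_congr rfl (fun i _ => e2 i)]
    rw [Fin.sum_univ_eq_sum_range (fun i => (if (j : ℕ) = i then ((i : ℂ) + 1) * b i else 0) +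
          (if (j : ℕ) = i + 1 then ((i : ℂ) + 1) * b i else 0)) M]
    rw [Finset.sum_add_distrib, Finset.sum_ite_eq, if_pos (by simp)]
    simp only [vecX, up]
    congr 1
    obtain ⟨j, hj⟩ := j
    simp only
    cases j with
    | zero => simp
    | succ k =>
      have : (∑ i ∈ Finset.range M, if k + 1 = i + 1 then ((i : ℂ) + 1) * b i else 0) =
          ∑ i ∈ Finset.range M, if k = i then ((i : ℂ) + 1) * b i else 0 := by
        refine Finset.sum_congr rfl fun i _ => ?_
        by_cases h : k = i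
        · simp [h]
        · simp [h]
      rw [this, Finset.sum_ite_eq, if_pos (by simp; omega)]
      push_cast
      rfl
  · have e1 : (∑ w : Od M, (if adjX M (Sum.inr ⟨i, y⟩) (Sum.inr w) then (1 : ℂ) else 0) *
        vecX M a b (Sum.inr w)) = 0 := by
      apply Finset.sum_eq_zero
      intro w _
      have h : ¬ adjX M (Sum.inr ⟨i, y⟩) (Sum.inr w) := fun h => h
      rw [if_neg h, zero_mul]
    rw [e1, add_zero, Fintype.sum_sigma]
    have e2 : ∀ j : Fin M, (∑ x : Fin (16 * (M - j)),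
        (if adjX M (Sum.inr ⟨i, y⟩) (Sum.inl ⟨j, x⟩) then (1 : ℂ) else 0) *
        vecX M a b (Sum.inl ⟨j, x⟩)) = (if (j : ℕ) = i then 16 * ((M : ℂ) - j) * a j else 0) +
          (if (j : ℕ) = (i : ℕ) + 1 then 16 * ((M : ℂ) - j) * a j else 0) := by
      intro j
      have : ∀ x : Fin (16 * (M - j)),
        (if adjX M (Sum.inr ⟨i, y⟩) (Sum.inl ⟨j, x⟩) then (1 : ℂ) else 0) *
        vecX M a b (Sum.inl ⟨j, x⟩) =
        (if (j : ℕ) = i then a j else 0) + (if (j : ℕ) = (i : ℕ) + 1 then a j else 0) := by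
        intro x
        have h : adjX M (Sum.inr ⟨i, y⟩) (Sum.inl ⟨j, x⟩) ↔
          ((j : ℕ) = i ∨ (j : ℕ) = (i : ℕ) + 1) := Iff.rfl
        simp only [h, vecX]
        by_cases h1 : (j : ℕ) = i
        · have h2 : ¬ (j : ℕ) = (i : ℕ) + 1 := by omega
          simp [h1]
        · by_cases h2 : (j : ℕ) = (i : ℕ) + 1
          · simp [h2]
          · simp [h1, h2]
      rw [Finset.sum_congr rfl (fun y _ => this y), Finset.sum_const, Finset.card_univ,
        Fintype.card_fin, nsmul_eq_mul, Nat.cast_mul, Nat.cast_sub j.2.le]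
      push_cast
      rw [mul_add, mul_ite, mul_ite, mul_zero]
    rw [Finset.sum_congr rfl (fun i _ => e2 i)]
    rw [Fin.sum_univ_eq_sum_range (fun j => (if j = (i : ℕ) then 16 * ((M : ℂ) - j) * a j else 0) +
          (if j = (i : ℕ) + 1 then 16 * ((M : ℂ) - j) * a j else 0)) M]
    rw [Finset.sum_add_distrib, Finset.sum_ite_eq', if_pos (by simp), Finset.sum_ite_eq']
    simp only [vecX, dn]
    congr 1
    obtain ⟨i, hi⟩ := i
    simp only
    by_cases h : i + 1 < M
    · rw [if_pos (by simpa using h)]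
      push_cast
      ring
    · have : i + 1 = M := by omega
      rw [if_neg (by simpa using h), ← this]
      push_cast
      ring

/-- the basic vectors -/
noncomputable def Fv (e : ℕ) : Ev M ⊕ Od M → ℂ :=
  vecX M (fun _ => 0) (fun j => (-1) ^ j * (j.choose e : ℂ))

lemma vecX_congr (a b a' b' : ℕ → ℂ) (h1 : ∀ j, j < M → a j = a' j) (h2 : ∀ j, j < M → b j = b' j) :
    vecX M a b = vecX M a' b' := by
  funext v
  rcases v with p | p
  · exact h1 _ p.1.2
  · exact h2 _ p.1.2

lemma sq_Fv (e : ℕ) [DecidableRel (X M).Adj] :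
    ((X M).adjMatrix ℂ * (X M).adjMatrix ℂ) *ᵥ Fv M e =
      (16 * ((e : ℂ) + 1) ^ 2) • Fv M e - (16 * ((e : ℂ) + 1) * ((M : ℂ) - e)) •
        (if e = 0 then 0 else Fv M (e - 1)) := by
  rw [← Matrix.mulVec_mulVec]
  unfold Fv
  rw [mulVec_vecX, mulVec_vecX]
  funext v
  rcases v with p | ⟨j, y⟩
  · rcases e with _ | e
    · simp [vecX, up, dn]
    · simp [vecX, up, dn]
  · simp only [vecX, Pi.sub_apply, Pi.smul_apply, smul_eq_mul]
    obtain ⟨j, hj⟩ := j
    simp only [up, dn]
    rcases e with _ | e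
    · rcases j with _ | j
      · simp; ring
      · simp only [Nat.choose_zero_right, Nat.cast_one, mul_one, Nat.add_sub_cancel, if_true,
          Pi.zero_apply, mul_zero, sub_zero]
        push_cast
        ring
    · rw [if_neg (by omega)]
      simp only [Nat.add_sub_cancel, vecX]
      rcases j with _ | n
      · rcases e with _ | e
        · simp; ring
        · have : Nat.choose 1 (e + 1 + 1) = 0 := Nat.choose_eq_zero_of_lt (by omega)
          simp [this]
      · have h1 : ((n + 2).choose (e + 1) : ℂ) = ((n + 1).choose e : ℂ) + ((n + 1).choose (e + 1) : ℂ) := by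
          rw [Nat.choose_succ_succ]; push_cast; rfl
        have h2 : ((n + 1).choose (e + 1) : ℂ) = (n.choose e : ℂ) + (n.choose (e + 1) : ℂ) := by
          rw [Nat.choose_succ_succ]; push_cast; rfl
        have h3 : ((n : ℂ) + 1) * (n.choose e : ℂ) = ((n + 1).choose (e + 1) : ℂ) * (e + 1) := by
          have := Nat.add_one_mul_choose_eq n e
          exact_mod_cast this
        have h4 : ((n : ℂ) + 2) * ((n + 1).choose e : ℂ) = ((n + 2).choose (e + 1) : ℂ) * (e + 1) := by
          have := Nat.add_one_mul_choose_eq (n + 1) e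
          exact_mod_cast this
        have e1 : n + 1 + 1 = n + 2 := rfl
        simp only [e1, Nat.add_sub_cancel]
        have h5 : (n.choose (e + 1) : ℂ) = ((n + 1).choose (e + 1) : ℂ) - (n.choose e : ℂ) := by
          rw [h2]; ring
        rw [h5]
        rw [h1] at h4 ⊢
        push_cast
        have h6 : (-1 : ℂ) ^ (n + 2) = (-1) ^ n := by rw [pow_add]; norm_num
        have h7 : (-1 : ℂ) ^ (n + 1) = -(-1) ^ n := by rw [pow_add]; norm_num
        rw [h6, h7]
        linear_combination (-16 * (-1) ^ n * ((M : ℂ) - n - 1)) * h3 +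
          (16 * (-1) ^ n * ((M : ℂ) - n - e - 4)) * h4

end Pool.Agent.Helper211.PSTEdge
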