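import Pool.Agent.Helper211.PSTEdge

set_option autoImplicit false

open scoped BigOperators Matrix

namespace Pool.Agent.Helper211.PSTEdge

open Pool.Agent.Helper211.PST

variable {V : Type} [Fintype V] [DecidableEq V]

/-- span of the eigenvectors whose eigenvalue is an integer multiple of 4 -/
def Sp (A : Matrix V V ℂ) : Submodule ℂ (V → ℂ) :=
  Submodule.span ℂ {w | ∃ z : ℤ, A *ᵥ w = (4 * (z : ℂ)) • w}

omit [DecidableEq V] in
lemma sq_mem_Sp (A : Matrix V V ℂ) (e : ℕ) (w : V → ℂ)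
    (h : (A * A) *ᵥ w = (16 * ((e : ℂ) + 1) ^ 2) • w) : w ∈ Sp A := by
  have he : (4 * ((e : ℂ) + 1)) ≠ 0 := by
    have : ((e : ℂ) + 1) ≠ 0 := by exact_mod_cast Nat.succ_ne_zero e
    simpa using this
  have hA : A *ᵥ (A *ᵥ w) = (16 * ((e : ℂ) + 1) ^ 2) • w := by
    rw [Matrix.mulVec_mulVec]; exact h
  have h1 : w + (4 * ((e : ℂ) + 1))⁻¹ • (A *ᵥ w) ∈ Sp A := by
    apply Submodule.subset_span
    refine ⟨(e : ℤ) + 1, ?_⟩
    rw [Matrix.mulVec_add, Matrix.mulVec_smul, hA, smul_smul, smul_add, smul_smul]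
    push_cast
    rw [mul_inv_cancel₀ he, one_smul, add_comm]
    congr 2
    field_simp
    ring
  have h2 : w - (4 * ((e : ℂ) + 1))⁻¹ • (A *ᵥ w) ∈ Sp A := by
    apply Submodule.subset_span
    refine ⟨-((e : ℤ) + 1), ?_⟩
    rw [Matrix.mulVec_sub, Matrix.mulVec_smul, hA, smul_smul, smul_sub, smul_smul]
    push_cast
    have e1 : 4 * (-1 + -(e : ℂ)) * (4 * ((e : ℂ) + 1))⁻¹ = -1 := by
      field_simp
      ring
    have e2 : 4 * (-((e : ℂ) + 1)) * (4 * ((e : ℂ) + 1))⁻¹ = -1 := by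
      field_simp
    have e3 : (4 * ((e : ℂ) + 1))⁻¹ * (16 * ((e : ℂ) + 1) ^ 2) = 4 * ((e : ℂ) + 1) := by
      field_simp
      ring
    rw [e2, e3]
    funext v
    simp
    ring
  have h3 : w = (2 : ℂ)⁻¹ • ((w + (4 * ((e : ℂ) + 1))⁻¹ • (A *ᵥ w)) +
      (w - (4 * ((e : ℂ) + 1))⁻¹ • (A *ᵥ w))) := by
    funext v
    simp
    ring
  rw [h3]
  exact Submodule.smul_mem _ _ (Submodule.add_mem _ h1 h2)

omit [DecidableEq V] in
lemma Esp_le_Sp (A : Matrix V V ℂ) (d : ℕ) :
    Esp (A * A) (fun e => 16 * ((e : ℂ) + 1) ^ 2) d ≤ Sp A := by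
  unfold Esp
  rw [Submodule.span_le]
  rintro w ⟨x, _, hw⟩
  exact sq_mem_Sp A x w hw

lemma Fv_mem (M : ℕ) [DecidableRel (X M).Adj] (e : ℕ) :
    Fv M e ∈ Sp ((X M).adjMatrix ℂ) := by
  apply Esp_le_Sp _ (e + 1)
  apply mem_Esp _ _ (fun d => 16 * ((d : ℂ) + 1 + 1) * ((M : ℂ) - (d + 1)))
  · intro d x hx h
    have h1 : (((x + 1) ^ 2 : ℕ) : ℂ) = (((d + 1) ^ 2 : ℕ) : ℂ) := by
      push_cast
      linear_combination h / 16
    have h2 : (x + 1) ^ 2 = (d + 1) ^ 2 := by exact_mod_cast h1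
    have h3 : (x + 1) ^ 2 < (d + 1) ^ 2 := Nat.pow_lt_pow_left (by omega) (by norm_num)
    omega
  · rw [sq_Fv]
    simp
  · intro d
    rw [sq_Fv]
    simp

/-- the special vertex -/
def u0 (M : ℕ) (hM : 0 < M) : Ev M ⊕ Od M := Sum.inr ⟨⟨0, hM⟩, ⟨0, by simp⟩⟩

lemma delta_mem (M : ℕ) (hM : 0 < M) [DecidableRel (X M).Adj] :
    (Pi.single (u0 M hM) 1 : Ev M ⊕ Od M → ℂ) ∈ Sp ((X M).adjMatrix ℂ) := by
  have hw : (Pi.single (u0 M hM) 1 : Ev M ⊕ Od M → ℂ) =
      ∑ e ∈ Finset.range M, ((-1 : ℂ) ^ e) • Fv M e := by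
    funext v
    rw [Finset.sum_apply]
    rcases v with p | ⟨⟨j, hj⟩, y⟩
    · simp [u0, Fv, vecX]
    · have e1 : ∀ e ∈ Finset.range M, (((-1 : ℂ) ^ e) • Fv M e) (Sum.inr ⟨⟨j, hj⟩, y⟩) =
          (-1) ^ j * ((-1) ^ e * (j.choose e : ℂ)) := by
        intro e _
        simp only [Fv, vecX, Pi.smul_apply, smul_eq_mul]
        ring
      rw [Finset.sum_congr rfl e1, ← Finset.mul_sum]
      have e3 : (∑ e ∈ Finset.range M, (-1 : ℂ) ^ e * (j.choose e : ℂ)) =
          ∑ e ∈ Finset.range (j + 1), (-1 : ℂ) ^ e * (j.choose e : ℂ) := by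
        symm
        apply Finset.sum_subset
        · intro d hd
          simp only [Finset.mem_range] at hd ⊢
          omega
        · intro d _ hd
          simp only [Finset.mem_range, not_lt] at hd
          rw [Nat.choose_eq_zero_of_lt (by omega)]
          simp
      have h4 := congrArg (fun t : ℤ => (t : ℂ)) (Int.alternating_sum_range_choose (n := j))
      push_cast at h4
      rw [e3, h4]
      rcases j with _ | j
      · simp only [pow_zero, if_true, mul_one]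
        have : (Sum.inr ⟨⟨0, hj⟩, y⟩ : Ev M ⊕ Od M) = u0 M hM := by
          unfold u0
          congr 2
          apply Fin.ext
          have := y.2
          simp at this ⊢
        rw [this, Pi.single_eq_same]
      · rw [if_neg (by omega), mul_zero]
        rw [Pi.single_apply, if_neg]
        intro h
        unfold u0 at h
        have h5 := Sum.inr_injective h
        have h6 := congrArg (fun q : Od M => (q.1 : ℕ)) h5
        simp at h6
  rw [hw]
  exact Submodule.sum_mem _ fun e _ => Submodule.smul_mem _ _ (Fv_mem M e)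

section Box

variable (H : SimpleGraph V) [DecidableRel H.Adj]

/-- tensor vector -/
def tn (f : V → ℂ) (s : Bool → ℂ) : V × Bool → ℂ := fun p => f p.1 * s p.2

lemma box_mulVec (f : V → ℂ) (s : Bool → ℂ) (c : ℂ) (hs : ∀ b, s (!b) = c * s b)
    [DecidableRel (H.boxProd (⊤ : SimpleGraph Bool)).Adj] :
    (H.boxProd (⊤ : SimpleGraph Bool)).adjMatrix ℂ *ᵥ tn f s =
      tn (H.adjMatrix ℂ *ᵥ f + c • f) s := by
  classical
  funext p
  obtain ⟨x, b⟩ := p
  have e1 : ∀ y : V, ∀ d : Bool,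
      (H.boxProd (⊤ : SimpleGraph Bool)).adjMatrix ℂ (x, b) (y, d) =
      (H.adjMatrix ℂ x y) * (if b = d then 1 else 0) +
      (if x = y then 1 else 0) * (if (!b) = d then 1 else 0) := by
    intro y d
    rw [SimpleGraph.adjMatrix_apply, SimpleGraph.adjMatrix_apply]
    have h : (H.boxProd (⊤ : SimpleGraph Bool)).Adj (x, b) (y, d) ↔
        (H.Adj x y ∧ b = d) ∨ (b ≠ d ∧ x = y) := by
      rw [SimpleGraph.boxProd_adj]
      simp
    simp only [h]
    cases b <;> cases d <;> by_cases hxy : x = y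
    all_goals simp [hxy]
  simp only [Matrix.mulVec, dotProduct]
  rw [Fintype.sum_prod_type]
  simp only [e1, tn, Pi.add_apply, Pi.smul_apply, smul_eq_mul]
  have e2 : ∀ y : V, (∑ d : Bool, ((H.adjMatrix ℂ x y) * (if b = d then 1 else 0) +
      (if x = y then 1 else 0) * (if (!b) = d then 1 else 0)) * (f y * s d)) =
      (H.adjMatrix ℂ x y * f y) * s b + (if x = y then f y * (c * s b) else 0) := by
    intro y
    rw [← hs b]
    cases b <;> by_cases hxy : x = y <;> simp [hxy] <;> ring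
  rw [Finset.sum_congr rfl (fun y _ => e2 y), Finset.sum_add_distrib, Finset.sum_ite_eq,
    if_pos (Finset.mem_univ _), ← Finset.sum_mul]
  show _ = ((∑ y, H.adjMatrix ℂ x y * f y) + c * f x) * s b
  ring

lemma evo_tn (s : Bool → ℂ) (c γ : ℂ) (hs : ∀ b, s (!b) = c * s b)
    (hγ : Complex.exp (Complex.I * ((Real.pi / 2 : ℝ) : ℂ) * c) = γ)
    [DecidableRel (H.boxProd (⊤ : SimpleGraph Bool)).Adj]
    (f : V → ℂ) (hf : f ∈ Sp (H.adjMatrix ℂ)) :
    (NormedSpace.exp ((Complex.I * ((Real.pi / 2 : ℝ) : ℂ)) •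
      (H.boxProd (⊤ : SimpleGraph Bool)).adjMatrix ℂ)) *ᵥ tn f s = γ • tn f s := by
  unfold Sp at hf
  induction hf using Submodule.span_induction with
  | mem w hw =>
    obtain ⟨z, hz⟩ := hw
    have h1 : ((Complex.I * ((Real.pi / 2 : ℝ) : ℂ)) •
        (H.boxProd (⊤ : SimpleGraph Bool)).adjMatrix ℂ) *ᵥ tn w s =
        (Complex.I * ((Real.pi / 2 : ℝ) : ℂ) * (4 * z + c)) • tn w s := by
      rw [Matrix.smul_mulVec, box_mulVec H w s c hs, hz]
      funext p
      simp only [tn, Pi.add_apply, Pi.smul_apply, smul_eq_mul]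
      ring
    rw [exp_mulVec_eig _ _ _ h1]
    congr 1
    rw [← hγ, mul_add, Complex.exp_add]
    have : Complex.I * ((Real.pi / 2 : ℝ) : ℂ) * (4 * (z : ℂ)) = z * (2 * Real.pi * Complex.I) := by
      push_cast; ring
    rw [this, Complex.exp_int_mul_two_pi_mul_I, one_mul]
  | zero =>
    have : tn (0 : V → ℂ) s = 0 := by funext p; simp [tn]
    rw [this]; simp
  | add a b _ _ ha hb =>
    have : tn (a + b) s = tn a s + tn b s := by funext p; simp [tn]; ring
    rw [this, Matrix.mulVec_add, ha, hb, smul_add]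
  | smul r a _ ha =>
    have : tn (r • a) s = r • tn a s := by funext p; simp [tn]; ring
    rw [this, Matrix.mulVec_smul, ha, smul_comm]

/-- perfect state transfer in the product with an edge -/
lemma pst_box (u : V) (hu : (Pi.single u 1 : V → ℂ) ∈ Sp (H.adjMatrix ℂ))
    [DecidableRel (H.boxProd (⊤ : SimpleGraph Bool)).Adj] :
    (NormedSpace.exp ((Complex.I * ((Real.pi / 2 : ℝ) : ℂ)) •
      (H.boxProd (⊤ : SimpleGraph Bool)).adjMatrix ℂ)) *ᵥ (Pi.single (u, false) 1) =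
      Pi.single (u, true) Complex.I := by
  have h1 := evo_tn H (fun _ => 1) 1 Complex.I (by simp) (by
    rw [mul_one, mul_comm, Complex.exp_mul_I, ← Complex.ofReal_cos, ← Complex.ofReal_sin,
      Real.cos_pi_div_two, Real.sin_pi_div_two]
    simp) _ hu
  have h2 := evo_tn H (fun b => if b then -1 else 1) (-1) (-Complex.I) (by
      intro b; cases b <;> simp) (by
    rw [show Complex.I * ((Real.pi / 2 : ℝ) : ℂ) * (-1) = ((-(Real.pi / 2) : ℝ) : ℂ) * Complex.I by
      push_cast; ring, Complex.exp_mul_I, ← Complex.ofReal_cos, ← Complex.ofReal_sin,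
      Real.cos_neg, Real.sin_neg, Real.cos_pi_div_two, Real.sin_pi_div_two]
    simp) _ hu
  have h3 : (Pi.single (u, false) 1 : V × Bool → ℂ) =
      (2 : ℂ)⁻¹ • (tn (Pi.single u 1) (fun _ => 1) +
        tn (Pi.single u 1) (fun b => if b then -1 else 1)) := by
    funext p
    obtain ⟨x, b⟩ := p
    cases b <;> by_cases hx : x = u <;> simp [tn, hx, Pi.single_apply]
    ring
  rw [h3, Matrix.mulVec_smul, Matrix.mulVec_add, h1, h2]
  funext p
  obtain ⟨x, b⟩ := p
  cases b <;> by_cases hx : x = u <;> simp [tn, hx, Pi.single_apply]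
  ring

end Box

end Pool.Agent.Helper211.PSTEdge
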