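import Pool.Agent.Helper211.PSTEdge2

set_option autoImplicit false

open scoped BigOperators Matrix

namespace Pool.Agent.Helper211.PSTEdge

lemma X_connected (M : ℕ) (hM : 0 < M) : (X M).Connected := by
  rw [SimpleGraph.connected_iff_exists_forall_reachable]
  refine ⟨u0 M hM, ?_⟩
  have key : ∀ k : ℕ, ∀ hk : k < M,
      (∀ x, (X M).Reachable (u0 M hM) (Sum.inl ⟨⟨k, hk⟩, x⟩)) ∧
      (∀ y, (X M).Reachable (u0 M hM) (Sum.inr ⟨⟨k, hk⟩, y⟩)) := by
    intro k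
    induction k with
    | zero =>
      intro hk
      have h1 : ∀ x, (X M).Reachable (u0 M hM) (Sum.inl ⟨⟨0, hk⟩, x⟩) := by
        intro x
        apply SimpleGraph.Adj.reachable
        show (0 : ℕ) = 0 ∨ (0 : ℕ) = 0 + 1
        exact Or.inl rfl
      refine ⟨h1, ?_⟩
      intro y
      have hpos : 0 < 16 * (M - ((⟨0, hk⟩ : Fin M) : ℕ)) := by simp; omega
      refine (h1 ⟨0, hpos⟩).trans (SimpleGraph.Adj.reachable ?_)
      show (0 : ℕ) = 0 ∨ (0 : ℕ) = 0 + 1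
      exact Or.inl rfl
    | succ k ih =>
      intro hk
      obtain ⟨_, ih2⟩ := ih (by omega)
      have hpos0 : 0 < (((⟨k, by omega⟩ : Fin M) : ℕ) + 1) := by omega
      have h1 : ∀ x, (X M).Reachable (u0 M hM) (Sum.inl ⟨⟨k + 1, hk⟩, x⟩) := by
        intro x
        refine (ih2 ⟨0, hpos0⟩).trans (SimpleGraph.Adj.reachable ?_)
        show (k + 1 : ℕ) = k ∨ (k + 1 : ℕ) = k + 1
        exact Or.inr rfl
      refine ⟨h1, ?_⟩
      intro y
      have hpos : 0 < 16 * (M - ((⟨k + 1, hk⟩ : Fin M) : ℕ)) := by simp; omega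
      refine (h1 ⟨0, hpos⟩).trans (SimpleGraph.Adj.reachable ?_)
      show (k + 1 : ℕ) = k + 1 ∨ (k + 1 : ℕ) = k + 1 + 1
      exact Or.inl rfl
  intro w
  rcases w with ⟨⟨k, hk⟩, x⟩ | ⟨⟨k, hk⟩, y⟩
  · exact (key k hk).1 x
  · exact (key k hk).2 y

/-- the final graph -/
def G (M : ℕ) : SimpleGraph ((Ev M ⊕ Od M) × Bool) := (X M).boxProd (⊤ : SimpleGraph Bool)

lemma G_connected (M : ℕ) (hM : 0 < M) : (G M).Connected :=
  SimpleGraph.Connected.boxProd (X_connected M hM) SimpleGraph.connected_top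

lemma lev_adj (M : ℕ) (p q : (Ev M ⊕ Od M) × Bool) (h : (G M).Adj p q) :
    levX M q.1 ≤ levX M p.1 + 1 := by
  unfold G at h
  rw [SimpleGraph.boxProd_adj] at h
  rcases h with ⟨h, -⟩ | ⟨-, h⟩
  · obtain ⟨p, b⟩ := p
    obtain ⟨q, c⟩ := q
    simp only at h ⊢
    rcases p with p | p <;> rcases q with q | q
    · exact h.elim
    · have : (p.1 : ℕ) = q.1 ∨ (p.1 : ℕ) = q.1 + 1 := h
      simp only [levX]; omega
    · have : (q.1 : ℕ) = p.1 ∨ (q.1 : ℕ) = p.1 + 1 := h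
      simp only [levX]; omega
    · exact h.elim
  · rw [h]; omega

lemma G_diam (M : ℕ) (hM : 0 < M) : M ≤ (G M).diam := by
  have hconn := G_connected M hM
  have hpos : 0 < 16 * (M - ((⟨0, hM⟩ : Fin M) : ℕ)) := by simp; omega
  let a0 : (Ev M ⊕ Od M) × Bool := (Sum.inl ⟨⟨0, hM⟩, ⟨0, hpos⟩⟩, false)
  let b0 : (Ev M ⊕ Od M) × Bool := (Sum.inr ⟨⟨M - 1, by omega⟩, ⟨0, by simp⟩⟩, false)
  have hwalk : ∀ (x y : (Ev M ⊕ Od M) × Bool) (p : (G M).Walk x y),
      levX M y.1 ≤ levX M x.1 + p.length := by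
    intro x y p
    induction p with
    | nil => simp
    | cons h p ih =>
      rename_i u v w
      have h1 := lev_adj M u v h
      rw [SimpleGraph.Walk.length_cons]
      omega
  have : Nonempty ((Ev M ⊕ Od M) × Bool) := ⟨a0⟩
  obtain ⟨p, hp⟩ := hconn.exists_walk_length_eq_dist a0 b0
  have h1 := hwalk _ _ p
  have h2 : (G M).dist a0 b0 ≤ (G M).diam :=
    SimpleGraph.dist_le_diam (SimpleGraph.connected_iff_ediam_ne_top.mp hconn)
  have h3 : levX M b0.1 = 2 * (M - 1) + 1 := rfl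
  have h4 : levX M a0.1 = 0 := rfl
  omega

lemma card_V (M : ℕ) : Fintype.card ((Ev M ⊕ Od M) × Bool) ≤ 34 * M ^ 2 := by
  rw [Fintype.card_prod, Fintype.card_sum, Fintype.card_bool, Fintype.card_sigma,
    Fintype.card_sigma]
  have h1 : (∑ j : Fin M, Fintype.card (Fin (16 * (M - j)))) ≤ M * (16 * M) := by
    have : ∀ j ∈ (Finset.univ : Finset (Fin M)), Fintype.card (Fin (16 * (M - j))) ≤ 16 * M := by
      intro j _
      rw [Fintype.card_fin]
      omega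
    have := Finset.sum_le_card_nsmul _ _ _ this
    simpa using this
  have h2 : (∑ j : Fin M, Fintype.card (Fin ((j : ℕ) + 1))) ≤ M * M := by
    have : ∀ j ∈ (Finset.univ : Finset (Fin M)), Fintype.card (Fin ((j : ℕ) + 1)) ≤ M := by
      intro j _
      rw [Fintype.card_fin]
      exact j.2
    have := Finset.sum_le_card_nsmul _ _ _ this
    simpa using this
  nlinarith

lemma G_degree (M : ℕ) (hM : 0 < M) (p : (Ev M ⊕ Od M) × Bool) [DecidableRel (G M).Adj] :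
    (G M).degree p ≤ 34 * M := by
  classical
  have h1 : ((G M).degree p : ℂ) = ((G M).adjMatrix ℂ *ᵥ Function.const _ 1) p := by
    rw [SimpleGraph.adjMatrix_mulVec_const_apply, mul_one]
  have h2 : (Function.const ((Ev M ⊕ Od M) × Bool) (1 : ℂ)) = tn (fun _ => 1) (fun _ => 1) := by
    funext q; simp [tn]
  have h3 : (G M).adjMatrix ℂ *ᵥ tn (fun _ => 1) (fun _ => 1) =
      tn ((X M).adjMatrix ℂ *ᵥ (fun _ => 1) + (1 : ℂ) • (fun _ => 1)) (fun _ => 1) := by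
    have := box_mulVec (X M) (fun _ => 1) (fun _ => 1) 1 (by simp)
    convert this
    rfl
  have h4 : (fun _ : Ev M ⊕ Od M => (1 : ℂ)) = vecX M (fun _ => 1) (fun _ => 1) := by
    funext q; rcases q with q | q <;> simp [vecX]
  rw [h2, h3, h4, mulVec_vecX] at h1
  obtain ⟨v, b⟩ := p
  simp only [tn, Pi.add_apply, Pi.smul_apply, smul_eq_mul, mul_one] at h1
  rcases v with ⟨j, x⟩ | ⟨i, y⟩
  · simp only [vecX, up] at h1
    have h5 : ((G M).degree (Sum.inl ⟨j, x⟩, b) : ℂ) = ((2 * (j : ℕ) + 2 : ℕ) : ℂ) := by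
      rw [h1]; push_cast; ring
    have h6 : (G M).degree (Sum.inl ⟨j, x⟩, b) = 2 * (j : ℕ) + 2 := by exact_mod_cast h5
    have := j.2
    omega
  · simp only [vecX, dn] at h1
    have h5 : (((G M).degree (Sum.inr ⟨i, y⟩, b) + 32 * (i : ℕ) + 15 : ℕ) : ℂ) =
        ((32 * M : ℕ) : ℂ) := by
      push_cast
      rw [h1]; ring
    have h6 : (G M).degree (Sum.inr ⟨i, y⟩, b) + 32 * (i : ℕ) + 15 = 32 * M := by
      exact_mod_cast h5
    omega

lemma G_edges (M : ℕ) (hM : 0 < M) [DecidableRel (G M).Adj] :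
    (G M).edgeFinset.card ≤ 578 * M ^ 3 := by
  have h1 := SimpleGraph.sum_degrees_eq_twice_card_edges (G := G M)
  have h2 : ∑ v, (G M).degree v ≤ Fintype.card ((Ev M ⊕ Od M) × Bool) * (34 * M) := by
    have := Finset.sum_le_card_nsmul (Finset.univ : Finset ((Ev M ⊕ Od M) × Bool))
      (fun v => (G M).degree v) (34 * M) (fun v _ => G_degree M hM v)
    simpa using this
  have h3 := card_V M
  have h4 : Fintype.card ((Ev M ⊕ Od M) × Bool) * (34 * M) ≤ (34 * M ^ 2) * (34 * M) :=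
    Nat.mul_le_mul_right _ h3
  have h5 : (34 * M ^ 2) * (34 * M) = 2 * (578 * M ^ 3) := by ring
  omega

theorem final :
    ¬ (∃ k : ℝ, 3 < k ∧ ∃ c : ℝ, 0 < c ∧
      ∀ (V : Type) [Fintype V] [DecidableEq V] (G : SimpleGraph V) [DecidableRel G.Adj],
        G.Connected →
        (∃ u v : V, u ≠ v ∧ ∃ t : ℝ, ∃ γ : ℂ, ‖γ‖ = 1 ∧
          (NormedSpace.exp ((Complex.I * (t : ℂ)) • G.adjMatrix ℂ)).mulVec (Pi.single u 1)
            = Pi.single v γ) →
        c * (G.diam : ℝ) ^ k ≤ (G.edgeFinset.card : ℝ)) := by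
  classical
  rintro ⟨k, hk, c, hc, H⟩
  have hk3 : 0 < k - 3 := by linarith
  have ht := (tendsto_rpow_atTop hk3).comp (tendsto_natCast_atTop_atTop (R := ℝ))
  obtain ⟨M, hM1, hM0⟩ := ((ht.eventually_gt_atTop (578 / c)).and
    (Filter.eventually_gt_atTop 0)).exists
  have hM1' : 578 / c < (M : ℝ) ^ (k - 3) := hM1
  have hMr : (0 : ℝ) < M := by exact_mod_cast hM0
  have h1 := H ((Ev M ⊕ Od M) × Bool) (G M) (G_connected M hM0)
    ⟨(u0 M hM0, false), (u0 M hM0, true), by simp, Real.pi / 2, Complex.I, by simp,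
      pst_box (X M) (u0 M hM0) (delta_mem M hM0)⟩
  have h2 : ((G M).edgeFinset.card : ℝ) ≤ 578 * (M : ℝ) ^ 3 := by
    have := G_edges M hM0
    exact_mod_cast this
  have h3 : (M : ℝ) ^ k ≤ ((G M).diam : ℝ) ^ k := by
    apply Real.rpow_le_rpow hMr.le _ (by linarith)
    exact_mod_cast G_diam M hM0
  have h4 : (M : ℝ) ^ k = (M : ℝ) ^ 3 * (M : ℝ) ^ (k - 3) := by
    rw [← Real.rpow_natCast (M : ℝ) 3, ← Real.rpow_add hMr]
    congr 1
    push_cast
    ring
  have h5 : 578 < c * (M : ℝ) ^ (k - 3) := by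
    rw [div_lt_iff₀ hc] at hM1'
    linarith
  have h6 : 578 * (M : ℝ) ^ 3 < c * (M : ℝ) ^ k := by
    rw [h4]
    have : (0 : ℝ) < (M : ℝ) ^ 3 := by positivity
    nlinarith
  have h7 : c * (M : ℝ) ^ k ≤ c * ((G M).diam : ℝ) ^ k := mul_le_mul_of_nonneg_left h3 hc.le
  linarith

end Pool.Agent.Helper211.PSTEdge
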