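import Mathlib

set_option autoImplicit false

namespace Pool.Agent.Helper211.SimpDom

/-! ### Abstract part

`D` is a division ring whose unit group acts on the real line by order automorphisms, the action being
ultrametric for the addition, and containing all increasing affine maps. -/

section Abstract

variable {D : Type} [DivisionRing D] (τ : Dˣ →* (ℝ ≃o ℝ))

/-- `f` is zero or moves `t` to a positive real. -/
def Pos (t : ℝ) (f : D) : Prop := f = 0 ∨ ∃ u : Dˣ, (u : D) = f ∧ 0 < τ u t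

theorem pos_unit (t : ℝ) (u : Dˣ) : Pos τ t (u : D) ↔ 0 < τ u t := by
  constructor
  · rintro (h | ⟨v, hv, h⟩)
    · exact absurd h u.ne_zero
    · rw [Units.ext hv] at h
      exact h
  · intro h
    exact Or.inr ⟨u, rfl, h⟩

theorem tau_mul (u v : Dˣ) (t : ℝ) : τ (u * v) t = τ u (τ v t) := by
  rw [map_mul]
  rfl

theorem tau_inv (u : Dˣ) (t : ℝ) : τ u⁻¹ t = (τ u).symm t := by
  rw [map_inv]
  rfl

theorem tau_neg_one (t : ℝ) : τ (-1) t = t := by
  have h : τ (-1) (τ (-1) t) = t := by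
    rw [← tau_mul]
    have : (-1 : Dˣ) * (-1 : Dˣ) = 1 := by
      rw [neg_mul_neg, one_mul]
    rw [this, map_one]
    rfl
  rcases lt_trichotomy (τ (-1) t) t with h1 | h1 | h1
  · have h2 := (τ (-1)).lt_iff_lt.2 h1
    rw [h] at h2
    exact absurd (h2.trans h1) (lt_irrefl _)
  · exact h1
  · have h2 := (τ (-1)).lt_iff_lt.2 h1
    rw [h] at h2
    exact absurd (h1.trans h2) (lt_irrefl _)

theorem pos_neg (t : ℝ) (f : D) (h : Pos τ t f) : Pos τ t (-f) := by
  rcases h with h | ⟨u, rfl, h⟩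
  · left
    rw [h, neg_zero]
  · right
    refine ⟨-u, by simp, ?_⟩
    have : -u = (-1) * u := by simp
    rw [this, tau_mul, tau_neg_one]
    exact h

variable (hadd : ∀ f g h : Dˣ, (h : D) = f + g → ∀ t, min (τ f t) (τ g t) ≤ τ h t)

include hadd in
theorem pos_add (t : ℝ) (f g : D) (hf : Pos τ t f) (hg : Pos τ t g) : Pos τ t (f + g) := by
  rcases hf with rfl | ⟨u, rfl, hu⟩
  · rw [zero_add]; exact hg
  rcases hg with rfl | ⟨v, rfl, hv⟩
  · rw [add_zero]; exact Or.inr ⟨u, rfl, hu⟩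
  by_cases h0 : (u : D) + v = 0
  · exact Or.inl h0
  · refine Or.inr ⟨Units.mk0 _ h0, rfl, ?_⟩
    exact lt_of_lt_of_le (lt_min hu hv) (hadd u v _ rfl t)

theorem pos_mul (s t : ℝ) (hs : s ≤ 0) (f g : D) (hf : Pos τ s f) (hg : Pos τ t g) :
    Pos τ t (f * g) := by
  rcases hf with rfl | ⟨u, rfl, hu⟩
  · left; rw [zero_mul]
  rcases hg with rfl | ⟨v, rfl, hv⟩
  · left; rw [mul_zero]
  refine Or.inr ⟨u * v, by simp, ?_⟩
  rw [tau_mul]
  have h1 : τ u s < τ u (τ v t) := (τ u).lt_iff_lt.2 (lt_of_le_of_lt hs hv)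
  exact hu.trans h1

/-- The ring. -/
def R (hadd : ∀ f g h : Dˣ, (h : D) = f + g → ∀ t, min (τ f t) (τ g t) ≤ τ h t) :
    NonUnitalSubring D where
  carrier := {f | Pos τ (-1) f}
  add_mem' {a b} ha hb := pos_add τ hadd (-1) a b ha hb
  zero_mem' := Or.inl rfl
  neg_mem' {a} ha := pos_neg τ (-1) a ha
  mul_mem' {a b} ha hb := pos_mul τ (-1) (-1) (by norm_num) a b ha hb

theorem mem_R (f : D) : f ∈ R τ hadd ↔ Pos τ (-1) f := Iff.rfl

theorem unit_mem_R (u : Dˣ) : (u : D) ∈ R τ hadd ↔ 0 < τ u (-1) := pos_unit τ (-1) u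

theorem exists_unit (f : R τ hadd) (hf : f ≠ 0) : ∃ u : Dˣ, (u : D) = f ∧ 0 < τ u (-1) := by
  rcases f.2 with h | h
  · exact absurd (Subtype.ext h) hf
  · exact h

theorem noZero : NoZeroDivisors (R τ hadd) := by
  refine ⟨?_⟩
  intro a b h
  have h' : (a : D) * (b : D) = 0 := congrArg Subtype.val h
  rcases mul_eq_zero.1 h' with h1 | h1
  · left; exact Subtype.ext h1
  · right; exact Subtype.ext h1

variable (haff : ∀ l b : ℝ, 0 < l → ∃ u : Dˣ, ∀ t, τ u t = l * t + b)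

include haff in
theorem exists_ne_zero : ∃ x : R τ hadd, x ≠ 0 := by
  obtain ⟨u, hu⟩ := haff 1 2 one_pos
  have hm : (u : D) ∈ R τ hadd := by
    rw [unit_mem_R, hu]
    norm_num
  refine ⟨⟨u, hm⟩, ?_⟩
  intro h
  exact u.ne_zero (congrArg Subtype.val h)

include haff in
theorem not_division : ¬ ∃ e : R τ hadd, (∀ x : R τ hadd, e * x = x ∧ x * e = x) ∧
    ∀ x : R τ hadd, x ≠ 0 → ∃ y : R τ hadd, x * y = e ∧ y * x = e := by
  rintro ⟨e, he, -⟩
  obtain ⟨x, hx⟩ := exists_ne_zero τ hadd haff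
  have hx' : (x : D) ≠ 0 := fun h => hx (Subtype.ext h)
  have h1 : (e : D) * (x : D) = x := congrArg Subtype.val (he x).1
  have h2 : (e : D) = 1 := mul_right_cancel₀ hx' (by rw [h1, one_mul])
  have h3 : Pos τ (-1) ((1 : Dˣ) : D) := by
    rw [Units.val_one, ← h2]
    exact e.2
  rw [pos_unit, map_one] at h3
  have h4 : (1 : ℝ ≃o ℝ) (-1) = -1 := rfl
  rw [h4] at h3
  norm_num at h3

include haff in
/-- Every element of the ring is a product `r * a * r'` for a given nonzero `a`. -/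
theorem sandwich (a b : R τ hadd) (ha : a ≠ 0) : ∃ r r' : R τ hadd, b = r * a * r' := by
  by_cases hb : b = 0
  · refine ⟨0, 0, ?_⟩
    rw [hb, zero_mul, zero_mul]
  obtain ⟨u, hu, hu1⟩ := exists_unit τ hadd a ha
  obtain ⟨v, hv, hv1⟩ := exists_unit τ hadd b hb
  -- `p = τ u⁻¹ (-1) < -1`, `q = τ v⁻¹ 0 < -1`
  have hq : (τ v).symm 0 < -1 := by
    rw [OrderIso.symm_apply_lt]
    exact hv1
  set p := (τ u).symm (-1) with hp
  set q := (τ v).symm 0 with hq'
  -- choose l large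
  obtain ⟨l, hl0, hl⟩ : ∃ l : ℝ, 0 < l ∧ l * (q + 1) + 1 < p := by
    refine ⟨(|p| + 2) / (-(q + 1)), ?_, ?_⟩
    · apply div_pos
      · positivity
      · linarith
    · have h1 : -(q + 1) ≠ 0 := by
        intro h; linarith
      have h2 : (|p| + 2) / (-(q + 1)) * (q + 1) = -(|p| + 2) := by
        have h3 := div_mul_cancel₀ (|p| + 2) h1
        linear_combination -h3
      rw [h2]
      have := neg_abs_le p
      linarith
  obtain ⟨w, hw⟩ := haff l (l + 1) hl0
  have hwR : (w : D) ∈ R τ hadd := by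
    rw [unit_mem_R, hw]
    linarith
  have hr : 0 < τ (v * w⁻¹ * u⁻¹) (-1) := by
    rw [tau_mul, tau_mul, tau_inv, tau_inv]
    have h1 : q < (τ w).symm p := by
      rw [OrderIso.lt_symm_apply, hw]
      linarith
    have h2 := (τ v).lt_iff_lt.2 h1
    rw [hq', OrderIso.apply_symm_apply] at h2
    exact h2
  refine ⟨⟨((v * w⁻¹ * u⁻¹ : Dˣ) : D), (unit_mem_R τ hadd _).2 hr⟩, ⟨w, hwR⟩, ?_⟩
  apply Subtype.ext
  have h3 : v = v * w⁻¹ * u⁻¹ * u * w := by
    group
  have h4 := congrArg (Units.val) h3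
  rw [Units.val_mul, Units.val_mul] at h4
  rw [← hv, h4]
  rw [NonUnitalSubring.val_mul, NonUnitalSubring.val_mul, ← hu]

include haff in
theorem simple : IsSimpleRing (R τ hadd) := by
  obtain ⟨x, hx⟩ := exists_ne_zero τ hadd haff
  refine ⟨?_⟩
  have : Nontrivial (TwoSidedIdeal (R τ hadd)) := by
    refine ⟨⟨⊥, ⊤, ?_⟩⟩
    intro h
    have h1 : x ∈ (⊤ : TwoSidedIdeal (R τ hadd)) := TwoSidedIdeal.mem_top _
    rw [← h, TwoSidedIdeal.mem_bot] at h1
    exact hx h1
  refine ⟨?_⟩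
  intro I
  by_cases hI : ∀ a ∈ I, a = 0
  · left
    apply le_antisymm
    · intro a ha
      rw [TwoSidedIdeal.mem_bot]
      exact hI a ha
    · exact bot_le
  · right
    push Not at hI
    obtain ⟨a, ha, ha0⟩ := hI
    apply le_antisymm le_top
    intro b _
    obtain ⟨r, r', h⟩ := sandwich τ hadd haff a b ha0
    rw [h]
    exact I.mul_mem_right _ _ (I.mul_mem_left _ _ ha)


/-! ### Idempotent left ideals -/

section LeftIdeals

variable (L : NonUnitalSubring (R τ hadd))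
  (hL : ∀ r x : R τ hadd, x ∈ L → r * x ∈ L)
  (hLL : AddSubgroup.closure {z : R τ hadd | ∃ a ∈ L, ∃ b ∈ L, z = a * b} = L.toAddSubgroup)

/-- The unit `u` represents an element of `L`. -/
def InL (u : Dˣ) : Prop := ∃ h : (u : D) ∈ R τ hadd, (⟨u, h⟩ : R τ hadd) ∈ L

theorem inL_of_mem (x : R τ hadd) (hx : x ∈ L) (u : Dˣ) (hu : (u : D) = x) : InL τ hadd L u := by
  refine ⟨?_, ?_⟩
  · rw [hu]; exact x.2
  · have : (⟨(u : D), by rw [hu]; exact x.2⟩ : R τ hadd) = x := Subtype.ext hu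
    rw [this]
    exact hx

include hL hLL in
/-- Closure under left multiplication by elements with nonnegative value. -/
theorem inL_smul (a : Dˣ) (ha : InL τ hadd L a) (s : Dˣ) (hs : 0 ≤ τ s 0) : InL τ hadd L (s * a) := by
  obtain ⟨haR, haL⟩ := ha
  -- the map x ↦ s * x sends closure into L
  have key : ∀ z ∈ AddSubgroup.closure {z : R τ hadd | ∃ a ∈ L, ∃ b ∈ L, z = a * b},
      ∃ y : R τ hadd, y ∈ L ∧ (y : D) = s * z := by
    intro z hz
    induction hz using AddSubgroup.closure_induction with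
    | mem z hz =>
      obtain ⟨b, hb, c, hc, rfl⟩ := hz
      by_cases hb0 : b = 0
      · refine ⟨0, L.zero_mem, ?_⟩
        rw [hb0, zero_mul]
        simp
      obtain ⟨u, hu, hu1⟩ := exists_unit τ hadd b hb0
      have h1 : ((s * u : Dˣ) : D) ∈ R τ hadd := by
        rw [unit_mem_R, tau_mul]
        have h2 := (τ s).lt_iff_lt.2 hu1
        linarith
      refine ⟨⟨_, h1⟩ * c, hL _ _ hc, ?_⟩
      have h3 : ((s * u : Dˣ) : D) = s * b := by rw [Units.val_mul, hu]
      change ((s * u : Dˣ) : D) * (c : D) = s * ((b : D) * (c : D))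
      rw [h3, mul_assoc]
    | zero =>
      refine ⟨0, L.zero_mem, ?_⟩
      simp
    | add x y _ _ hx hy =>
      obtain ⟨x', hx', hx''⟩ := hx
      obtain ⟨y', hy', hy''⟩ := hy
      refine ⟨x' + y', L.add_mem hx' hy', ?_⟩
      rw [NonUnitalSubring.val_add, NonUnitalSubring.val_add, hx'', hy'', mul_add]
    | neg x _ hx =>
      obtain ⟨x', hx', hx''⟩ := hx
      refine ⟨-x', L.neg_mem hx', ?_⟩
      rw [NonUnitalSubring.val_neg, NonUnitalSubring.val_neg, hx'', mul_neg]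
  have hmem : (⟨(a : D), haR⟩ : R τ hadd) ∈
      AddSubgroup.closure {z : R τ hadd | ∃ a ∈ L, ∃ b ∈ L, z = a * b} := by
    rw [hLL]
    exact haL
  obtain ⟨y, hy, hy'⟩ := key _ hmem
  apply inL_of_mem τ hadd L y hy
  rw [hy', Units.val_mul]

include hL hLL in
theorem inL_of_lt (a g : Dˣ) (ha : InL τ hadd L a) (h : (τ g).symm 0 ≤ (τ a).symm 0) :
    InL τ hadd L g := by
  have h1 : g = (g * a⁻¹) * a := by group
  rw [h1]
  apply inL_smul τ hadd L hL hLL a ha
  rw [tau_mul, tau_inv]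
  have := (τ g).le_iff_le.2 h
  rw [OrderIso.apply_symm_apply] at this
  exact this

include hLL in
/-- The values are not attained. -/
theorem exists_larger (a : Dˣ) (ha : InL τ hadd L a) :
    ∃ c : Dˣ, InL τ hadd L c ∧ (τ a).symm 0 < (τ c).symm 0 := by
  by_contra hcon
  push Not at hcon
  obtain ⟨haR, haL⟩ := ha
  set t0 := (τ a).symm 0 with ht0
  have key : ∀ z ∈ AddSubgroup.closure {z : R τ hadd | ∃ a ∈ L, ∃ b ∈ L, z = a * b},
      Pos τ t0 (z : D) := by
    intro z hz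
    induction hz using AddSubgroup.closure_induction with
    | mem z hz =>
      obtain ⟨b, hb, c, hc, rfl⟩ := hz
      by_cases hb0 : b = 0
      · left
        rw [hb0, zero_mul]
        rfl
      by_cases hc0 : c = 0
      · left
        rw [hc0, mul_zero]
        rfl
      obtain ⟨u, hu, hu1⟩ := exists_unit τ hadd b hb0
      obtain ⟨v, hv, hv1⟩ := exists_unit τ hadd c hc0
      have h1 : InL τ hadd L v := inL_of_mem τ hadd L c hc v hv
      have h2 := hcon v h1
      right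
      refine ⟨u * v, ?_, ?_⟩
      · rw [Units.val_mul, hu, hv, NonUnitalSubring.val_mul]
      · rw [tau_mul]
        have h3 : 0 ≤ τ v t0 := by
          have := (τ v).le_iff_le.2 h2
          rw [OrderIso.apply_symm_apply] at this
          exact this
        have h4 : τ u (-1) < τ u (τ v t0) := (τ u).lt_iff_lt.2 (by linarith)
        linarith
    | zero => exact Or.inl rfl
    | add x y _ _ hx hy => exact pos_add τ hadd t0 _ _ hx hy
    | neg x _ hx => exact pos_neg τ t0 _ hx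
  have hmem : (⟨(a : D), haR⟩ : R τ hadd) ∈
      AddSubgroup.closure {z : R τ hadd | ∃ a ∈ L, ∃ b ∈ L, z = a * b} := by
    rw [hLL]
    exact haL
  have h5 := key _ hmem
  have h6 : 0 < τ a t0 := (pos_unit τ t0 a).1 h5
  rw [ht0, OrderIso.apply_symm_apply] at h6
  exact lt_irrefl _ h6

include hL hLL in
theorem exists_cut (hne : L ≠ ⊥) : ∃ s : ℝ, 1 ≤ s ∧ ∀ f : R τ hadd, f ∈ L ↔ Pos τ (-s) (f : D) := by
  -- a nonzero element
  obtain ⟨x, hx, hx0⟩ : ∃ x ∈ L, x ≠ 0 := by
    by_contra hcon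
    push Not at hcon
    apply hne
    rw [eq_bot_iff]
    intro y hy
    rw [hcon y hy]
    exact NonUnitalSubring.zero_mem _
  obtain ⟨u0, hu0, hu01⟩ := exists_unit τ hadd x hx0
  have hu0L : InL τ hadd L u0 := inL_of_mem τ hadd L x hx u0 hu0
  set X : Set ℝ := {t | ∃ u : Dˣ, InL τ hadd L u ∧ t = (τ u).symm 0} with hX
  have hXne : X.Nonempty := ⟨_, u0, hu0L, rfl⟩
  have hXb : ∀ t ∈ X, t ≤ -1 := by
    rintro t ⟨u, hu, rfl⟩
    obtain ⟨h1, -⟩ := hu
    rw [unit_mem_R] at h1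
    rw [OrderIso.symm_apply_le]
    exact h1.le
  have hbdd : BddAbove X := ⟨-1, hXb⟩
  refine ⟨- sSup X, ?_, ?_⟩
  · have := csSup_le hXne hXb
    linarith
  intro f
  rw [neg_neg]
  constructor
  · intro hf
    by_cases hf0 : f = 0
    · left; rw [hf0]; rfl
    obtain ⟨u, hu, hu1⟩ := exists_unit τ hadd f hf0
    have huL : InL τ hadd L u := inL_of_mem τ hadd L f hf u hu
    obtain ⟨c, hc, hc1⟩ := exists_larger τ hadd L hLL u huL
    right
    refine ⟨u, hu, ?_⟩
    have h1 : (τ u).symm 0 < sSup X := lt_of_lt_of_le hc1 (le_csSup hbdd ⟨c, hc, rfl⟩)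
    have h2 := (τ u).lt_iff_lt.2 h1
    rw [OrderIso.apply_symm_apply] at h2
    exact h2
  · rintro (h | ⟨u, hu, h⟩)
    · have : f = 0 := Subtype.ext h
      rw [this]
      exact L.zero_mem
    · have h1 : (τ u).symm 0 < sSup X := by
        rw [OrderIso.symm_apply_lt]
        exact h
      obtain ⟨t, ⟨c, hc, rfl⟩, ht⟩ := exists_lt_of_lt_csSup hXne h1
      obtain ⟨h2, h3⟩ := inL_of_lt τ hadd L hL hLL c u hc ht.le
      have h4 : (⟨(u : D), h2⟩ : R τ hadd) = f := Subtype.ext hu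
      rw [← h4]
      exact h3

theorem pos_conj (y : Dˣ) (s : ℝ) (hs : 0 < s) (hy : ∀ t, τ y t = s * t + 0) (f : D) (t : ℝ) :
    Pos τ (s * t) (y * f * (y⁻¹ : Dˣ)) ↔ Pos τ t f := by
  have hy' : (τ y).symm (s * t) = t := by
    rw [OrderIso.symm_apply_eq, hy, add_zero]
  constructor
  · rintro (h | ⟨u, hu, h⟩)
    · left
      have h1 : (y : D) * f = 0 := by
        rcases mul_eq_zero.1 h with h1 | h1
        · exact h1
        · exact absurd h1 (Units.ne_zero _)
      rcases mul_eq_zero.1 h1 with h2 | h2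
      · exact absurd h2 (Units.ne_zero _)
      · exact h2
    · right
      refine ⟨y⁻¹ * u * y, ?_, ?_⟩
      · rw [Units.val_mul, Units.val_mul, hu]
        rw [← mul_assoc, ← mul_assoc, Units.inv_mul, one_mul, mul_assoc, Units.inv_mul, mul_one]
      · rw [tau_mul, tau_mul, tau_inv, hy, add_zero]
        rw [OrderIso.lt_symm_apply, hy]
        linarith
  · rintro (rfl | ⟨u, rfl, h⟩)
    · left
      rw [mul_zero, zero_mul]
    · right
      refine ⟨y * u * y⁻¹, by rw [Units.val_mul, Units.val_mul], ?_⟩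
      rw [tau_mul, tau_mul, tau_inv, hy', hy, add_zero]
      exact mul_pos hs h

include hL hLL haff in
theorem iso (hne : L ≠ ⊥) : Nonempty (L ≃+* R τ hadd) := by
  obtain ⟨s, hs, hcut⟩ := exists_cut τ hadd L hL hLL hne
  have hs0 : 0 < s := by linarith
  obtain ⟨y, hy⟩ := haff s 0 hs0
  have e1 : ∀ f : D, Pos τ (-1) f ↔ Pos τ (-s) (y * f * (y⁻¹ : Dˣ)) := by
    intro f
    rw [← pos_conj τ y s hs0 hy f (-1)]
    rw [mul_neg, mul_one]
  have e2 : ∀ f : D, Pos τ (-s) f → Pos τ (-1) f := by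
    rintro f (h | ⟨u, hu, h⟩)
    · exact Or.inl h
    · refine Or.inr ⟨u, hu, ?_⟩
      have := (τ u).le_iff_le.2 (show -s ≤ -1 by linarith)
      linarith
  let fwd : R τ hadd → L := fun f =>
    ⟨⟨y * f * (y⁻¹ : Dˣ), e2 _ ((e1 _).1 f.2)⟩, (hcut _).2 ((e1 _).1 f.2)⟩
  have hfwd : ∀ f : R τ hadd, (((fwd f : L) : R τ hadd) : D) = y * f * (y⁻¹ : Dˣ) := fun f => rfl
  have hmul : ∀ f g, fwd (f * g) = fwd f * fwd g := by
    intro f g
    apply Subtype.ext
    apply Subtype.ext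
    rw [hfwd, NonUnitalSubring.val_mul, NonUnitalSubring.val_mul, NonUnitalSubring.val_mul, hfwd, hfwd]
    have h1 : ((y⁻¹ : Dˣ) : D) * (y : D) = 1 := Units.inv_mul _
    calc (y : D) * ((f : D) * (g : D)) * ((y⁻¹ : Dˣ) : D)
        = y * f * (1 : D) * (g * ((y⁻¹ : Dˣ) : D)) := by rw [mul_one]; simp only [mul_assoc]
      _ = y * f * (((y⁻¹ : Dˣ) : D) * (y : D)) * (g * ((y⁻¹ : Dˣ) : D)) := by rw [h1]
      _ = _ := by simp only [mul_assoc]
  have hadd' : ∀ f g, fwd (f + g) = fwd f + fwd g := by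
    intro f g
    apply Subtype.ext
    apply Subtype.ext
    rw [hfwd, NonUnitalSubring.val_add, NonUnitalSubring.val_add, NonUnitalSubring.val_add, hfwd, hfwd,
      mul_add, add_mul]
  have hinj : Function.Injective fwd := by
    intro f g h
    have h1 : (y : D) * f * ((y⁻¹ : Dˣ) : D) = y * g * ((y⁻¹ : Dˣ) : D) := by
      rw [← hfwd, ← hfwd, h]
    apply Subtype.ext
    exact mul_left_cancel₀ y.ne_zero (mul_right_cancel₀ (Units.ne_zero _) h1)
  have hsurj : Function.Surjective fwd := by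
    intro g
    have hg : Pos τ (-s) ((g : R τ hadd) : D) := (hcut _).1 g.2
    have h1 : (y : D) * (((y⁻¹ : Dˣ) : D) * ((g : R τ hadd) : D) * (y : D)) * ((y⁻¹ : Dˣ) : D) =
        ((g : R τ hadd) : D) := by
      rw [← mul_assoc, ← mul_assoc, Units.mul_inv, one_mul, mul_assoc, Units.mul_inv, mul_one]
    have h2 : Pos τ (-1) (((y⁻¹ : Dˣ) : D) * ((g : R τ hadd) : D) * (y : D)) := by
      rw [e1, h1]
      exact hg
    refine ⟨⟨_, h2⟩, ?_⟩
    apply Subtype.ext
    apply Subtype.ext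
    rw [hfwd]
    exact h1
  exact ⟨(RingEquiv.ofBijective
    ({ toFun := fwd, map_mul' := hmul, map_zero' := by
        apply Subtype.ext
        apply Subtype.ext
        rw [hfwd]
        simp, map_add' := hadd' } : R τ hadd →ₙ+* L) ⟨hinj, hsurj⟩).symm⟩

end LeftIdeals

end Abstract

end Pool.Agent.Helper211.SimpDom
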