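import Pool.Agent.Helper211.Folner

set_option autoImplicit false

namespace Pool.Agent.Helper211.AffAlg

open scoped Pointwise
open OreLocalization

/-- The division ring of fractions. -/
abbrev D : Type := OreLocalization (nonZeroDivisors A) A

open Classical in
/-- The action as a homomorphism to a group with zero. -/
noncomputable def tau0 : A →* WithZero (ℝ ≃o ℝ) where
  toFun T := if h : T = 0 then 0 else ((iso T h : ℝ ≃o ℝ) : WithZero (ℝ ≃o ℝ))
  map_one' := by
    rw [dif_neg one_ne_zero]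
    have : iso (1 : A) one_ne_zero = 1 := by
      ext t
      rw [iso_apply, mn_one]
      rfl
    rw [this]
    rfl
  map_mul' T T' := by
    by_cases h : T = 0
    · rw [dif_pos h, dif_pos (by rw [h, zero_mul]), zero_mul]
    by_cases h' : T' = 0
    · rw [dif_pos h', dif_pos (by rw [h', mul_zero]), mul_zero]
    have h2 := (key T T' h h' 0).1
    rw [dif_neg h, dif_neg h', dif_neg h2, ← WithZero.coe_mul]
    congr 1
    ext t
    rw [iso_apply, (key T T' h h' t).2]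
    rfl

theorem tau0_ne (T : A) (h : T ≠ 0) : tau0 T = ((iso T h : ℝ ≃o ℝ) : WithZero (ℝ ≃o ℝ)) :=
  dif_neg h

theorem tau0_ne_zero (T : A) (h : T ≠ 0) : tau0 T ≠ 0 := by
  rw [tau0_ne T h]
  exact WithZero.coe_ne_zero

/-- On denominators. -/
noncomputable def tauS : nonZeroDivisors A →* (WithZero (ℝ ≃o ℝ))ˣ where
  toFun s := Units.mk0 (tau0 s) (tau0_ne_zero _ (nonZeroDivisors.ne_zero s.2))
  map_one' := Units.ext (map_one tau0)
  map_mul' s t := Units.ext (map_mul tau0 (s : A) (t : A))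

/-- The extension to the division ring. -/
noncomputable def V : D →* WithZero (ℝ ≃o ℝ) :=
  universalMulHom tau0 tauS (fun _ => rfl)

theorem V_div (r : A) (s : nonZeroDivisors A) : V (r /ₒ s) = ((tauS s)⁻¹ : (WithZero (ℝ ≃o ℝ))ˣ) * tau0 r :=
  universalMulHom_apply (f := tau0) (fS := tauS) (fun _ => rfl)

/-- The homomorphism on units. -/
noncomputable def tau : Dˣ →* (ℝ ≃o ℝ) :=
  (WithZero.unitsWithZeroEquiv (α := (ℝ ≃o ℝ))).toMonoidHom.comp (Units.map V)

theorem tau_coe (u : Dˣ) : ((tau u : ℝ ≃o ℝ) : WithZero (ℝ ≃o ℝ)) = V (u : D) := by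
  have h : tau u = WithZero.unitsWithZeroEquiv (Units.map V u) := rfl
  rw [h, WithZero.coe_unitsWithZeroEquiv_eq_units_val]
  rfl

theorem tau_div (u : Dˣ) (r : A) (hr : r ≠ 0) (s : nonZeroDivisors A) (h : (u : D) = r /ₒ s) (t : ℝ) :
    tau u t = (iso (s : A) (nonZeroDivisors.ne_zero s.2)).symm (mn r t) := by
  have h1 : (tauS s : WithZero (ℝ ≃o ℝ)) * ((tau u : ℝ ≃o ℝ) : WithZero (ℝ ≃o ℝ)) = tau0 r := by
    rw [tau_coe, h, V_div, ← mul_assoc, ← Units.val_mul, mul_inv_cancel, Units.val_one, one_mul]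
  have h2 : (tauS s : WithZero (ℝ ≃o ℝ)) = tau0 (s : A) := rfl
  rw [h2, tau0_ne _ hr, tau0_ne _ (nonZeroDivisors.ne_zero s.2), ← WithZero.coe_mul, WithZero.coe_inj] at h1
  rw [OrderIso.eq_symm_apply]
  have h3 := DFunLike.congr_fun h1 t
  exact h3

theorem tau_add (f g h : Dˣ) (hfg : (h : D) = f + g) (t : ℝ) : min (tau f t) (tau g t) ≤ tau h t := by
  obtain ⟨r1, s1, e1⟩ : ∃ r1 s1, (f : D) = r1 /ₒ s1 := by
    induction (f : D) using OreLocalization.ind with
    | _ r s => exact ⟨r, s, rfl⟩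
  obtain ⟨r2, s2, e2⟩ : ∃ r2 s2, (g : D) = r2 /ₒ s2 := by
    induction (g : D) using OreLocalization.ind with
    | _ r s => exact ⟨r, s, rfl⟩
  obtain ⟨r3, s3, h3, h3'⟩ := oreDivAddChar' r1 r2 s1 s2
  have hmem : r3 * (s2 : A) ∈ nonZeroDivisors A := by
    rw [← h3]
    exact (s3 * s1).2
  have e1' : (f : D) = (s3 • r1) /ₒ (s3 * s1) := by
    rw [e1]
    exact OreLocalization.expand' r1 s1 s3
  have e2' : (g : D) = (r3 • r2) /ₒ (s3 * s1) := by
    rw [e2, OreLocalization.expand r2 s2 r3 hmem]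
    congr 1
    exact Subtype.ext h3.symm
  have e3' : (h : D) = (s3 • r1 + r3 • r2) /ₒ (s3 * s1) := by
    rw [hfg, e1, e2, h3']
  have n1 : (s3 • r1 : A) ≠ 0 := by
    intro h0
    rw [h0, OreLocalization.zero_oreDiv] at e1'
    exact f.ne_zero e1'
  have n2 : (r3 • r2 : A) ≠ 0 := by
    intro h0
    rw [h0, OreLocalization.zero_oreDiv] at e2'
    exact g.ne_zero e2'
  have n3 : (s3 • r1 + r3 • r2 : A) ≠ 0 := by
    intro h0
    rw [h0, OreLocalization.zero_oreDiv] at e3'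
    exact h.ne_zero e3'
  rw [tau_div f _ n1 _ e1', tau_div g _ n2 _ e2', tau_div h _ n3 _ e3']
  have h5 := mn_add _ _ n3 t
  rcases min_le_iff.1 h5 with h6 | h6
  · exact min_le_iff.2 (Or.inl ((OrderIso.le_iff_le _).2 h6))
  · exact min_le_iff.2 (Or.inr ((OrderIso.le_iff_le _).2 h6))

theorem tau_aff (l b : ℝ) (hl : 0 < l) : ∃ u : Dˣ, ∀ t, tau u t = l * t + b := by
  set x : A := MonoidAlgebra.single ⟨l, hl, b⟩ 1 with hx
  have hx0 : x ≠ 0 := by
    rw [hx, Ne, MonoidAlgebra.single_eq_zero]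
    exact one_ne_zero
  let u : Dˣ := OreLocalization.numeratorUnit ⟨x, mem_nonZeroDivisors_of_ne_zero hx0⟩
  refine ⟨u, ?_⟩
  intro t
  have h1 : (u : D) = x /ₒ (1 : nonZeroDivisors A) := rfl
  rw [tau_div u x hx0 1 h1, OrderIso.symm_apply_eq, iso_apply]
  change mn x t = mn (1 : A) _
  rw [mn_one, hx, mn_single]
  rfl

theorem final :
    ∃ (R : Type) (_inst : NonUnitalRing R),
      IsSimpleRing R ∧ NoZeroDivisors R ∧
      (¬ ∃ e : R, (∀ x : R, e * x = x ∧ x * e = x) ∧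
          ∀ x : R, x ≠ 0 → ∃ y : R, x * y = e ∧ y * x = e) ∧
      ∀ L : NonUnitalSubring R, L ≠ ⊥ →
        (∀ r x : R, x ∈ L → r * x ∈ L) →
        AddSubgroup.closure {z : R | ∃ a ∈ L, ∃ b ∈ L, z = a * b} = L.toAddSubgroup →
        Nonempty (L ≃+* R) := by
  refine ⟨SimpDom.R tau tau_add, inferInstance, SimpDom.simple tau tau_add tau_aff,
    SimpDom.noZero tau tau_add, SimpDom.not_division tau tau_add tau_aff, ?_⟩
  intro L hne hL hLL
  exact SimpDom.iso tau tau_add tau_aff L hL hLL hne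

end Pool.Agent.Helper211.AffAlg
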